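import Pool.Agent.H48.MT.Targets

/-! Module INV of mt_modules (helper88): fixed involutions are selfadjoint. -/

open InnerProductSpace Filter Topology
open scoped ComplexConjugate

namespace Pool.Agent.H88.MT

open Pool.Agent.H48.MT

section

variable {H : Type} [NormedAddCommGroup H] [InnerProductSpace ℂ H] [CompleteSpace H]

/-- a symmetry as a unitary map -/
noncomputable def uaOf (V : H →L[ℂ] H) (hs : star V = V) (hV : V * V = 1) : UA H where
  U := ⟨V, V, fun x => congrArg (fun A : H →L[ℂ] H => A x) hV,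
    fun x => congrArg (fun A : H →L[ℂ] H => A x) hV⟩
  add x y := map_add V x y
  nrm x := by
    change ‖V x‖ = ‖x‖
    have h1 : inner ℂ (V x) (V x) = (inner ℂ x x : ℂ) := by
      have h2 := ContinuousLinearMap.adjoint_inner_left V (V x) x
      rw [← ContinuousLinearMap.star_eq_adjoint, hs] at h2
      rw [h2]
      have h3 : V (V x) = x := congrArg (fun A : H →L[ℂ] H => A x) hV
      rw [h3]
    rw [inner_self_eq_norm_sq_to_K, inner_self_eq_norm_sq_to_K] at h1
    have h2 : ‖V x‖ ^ 2 = ‖x‖ ^ 2 := by exact_mod_cast h1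
    exact (pow_left_inj₀ (norm_nonneg _) (norm_nonneg _) two_ne_zero).1 h2
  s := id
  hs := Or.inl fun _ => rfl
  smul c x := map_smul V c x

lemma cj_uaOf (V : H →L[ℂ] H) (hs : star V = V) (hV : V * V = 1) (P : H →L[ℂ] H) :
    cj (uaOf V hs hV) P = V * P * V := by
  ext x
  rfl

end

theorem mt_INV (h2 : T_PT1) (h3 : T_PT3) (h4 : T_PT4) (h5 : T_PT5) (h8 : T_PT8) (hL : T_LAM)
    (hB : T_BAS) : T_INV := by
  intro H _ _ _ L hLam T hLT hTT
  have hTu : IsUnit T := ⟨⟨T, T, hTT, hTT⟩, rfl⟩
  obtain ⟨hPu, hVs, hsV, hal⟩ := h8 H T hTu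
  obtain ⟨e1, -⟩ := h2 H T
  set P := CFC.abs T with hP
  set V := pol T with hV
  have hP0 : 0 ≤ P := CFC.abs_nonneg T
  have hPs : star P = P := (IsSelfAdjoint.of_nonneg hP0).star_eq
  obtain ⟨padd, ppow, pun, pm1, pm2, -⟩ := h3 H P hP0 hPu
  have hP1 : P ^ (1 : ℝ) = P := CFC.rpow_one P hP0
  have hPz : P ^ (0 : ℝ) = 1 := CFC.rpow_zero P hP0
  set R := P ^ (-1 : ℝ) with hR
  have hR0 : 0 ≤ R := CFC.rpow_nonneg
  have hPR : P * R = 1 := pm1
  have hRP : R * P = 1 := by
    calc R * P = P ^ (-1 : ℝ) * P ^ (1 : ℝ) := by rw [hP1]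
      _ = 1 := by rw [padd, neg_add_cancel, hPz]
  -- the second polar decomposition
  have hTinv : T = R * star V := by
    have h6 : (R * star V) * T = 1 := by
      calc (R * star V) * T = (R * star V) * (V * P) := by rw [← e1]
        _ = R * (star V * V) * P := by simp only [mul_assoc]
        _ = 1 := by rw [hsV, mul_one, hRP]
    calc T = (R * star V) * T * T := by rw [h6, one_mul]
      _ = R * star V := by rw [mul_assoc, hTT, mul_one]
  set Q := V * R * star V with hQ
  have hQ0 : 0 ≤ Q := by
    have := star_left_conjugate_nonneg hR0 (star V)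
    rwa [star_star] at this
  have hTQ : T = star V * Q := by
    rw [hTinv, hQ]
    calc R * star V = (star V * V) * R * star V := by rw [hsV, one_mul]
      _ = star V * (V * R * star V) := by simp only [mul_assoc]
  obtain ⟨g1, g2⟩ := h4 H T (star V) Q hQ0 hTQ (by rw [star_star, hsV, one_mul])
    (by rw [star_star, hVs, one_mul]) (by
      intro x hx
      have h6 : (P * star V * Q) x = star V x := by
        have h7 : P * star V * Q = star V := by
          rw [hQ]
          calc P * star V * (V * R * star V) = P * (star V * V) * R * star V := by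
                simp only [mul_assoc]
            _ = star V := by rw [hsV, mul_one, hPR, one_mul]
        rw [h7]
      have h7 : (P * star V * Q) x = (P * star V) (Q x) := rfl
      rw [← h6, h7, hx, map_zero])
  -- consequences
  have hVsa : star V = V := g2
  have hVV : V * V = 1 := by
    rw [hVsa] at hsV
    exact hsV
  have hVRV : V * R * V = P := by
    rw [← hP] at g1
    rw [← g1, hQ, hVsa]
  have hVPV : V * P * V = R := by
    rw [← hVRV]
    calc V * (V * R * V) * V = (V * V) * R * (V * V) := by simp only [mul_assoc]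
      _ = R := by rw [hVV, one_mul, mul_one]
  have hconj : ∀ b : ℝ, 0 ≤ b → V * P ^ b = P ^ (-b) * V := by
    intro b hb
    have h6 := ((h5 H (uaOf V hVsa hVV)).1 P b hP0 hb).2
    rw [cj_uaOf, cj_uaOf, hVPV, hR, ppow] at h6
    have h7 : P ^ (-b) = V * P ^ b * V := by
      rw [← h6]
      congr 1
      ring
    rw [h7]
    calc V * P ^ b = V * P ^ b * (V * V) := by rw [hVV, mul_one]
      _ = _ := by simp only [mul_assoc]
  have halP : ∀ a : ℝ, a ≤ 1 → al a T = P ^ (2 * a - 1) * V := by
    intro a ha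
    change P ^ a * V * P ^ (1 - a) = _
    rw [mul_assoc, hconj (1 - a) (by linarith), ← mul_assoc, padd]
    congr 2
    ring
  rcases hLam with hdh | ⟨l, hl0, hl1, hmm⟩
  · -- the mean-Aluthge transform
    have h6 : al (1 / 2) T = V := by
      rw [halP (1 / 2) (by norm_num)]
      have : (2 * (1 / 2 : ℝ) - 1) = 0 := by norm_num
      rw [this, hPz, one_mul]
    have hVsa' : IsSelfAdjoint V := hVsa
    have h7 : mean V = V := by
      have h8' := (hB H (mm 0) (Or.inr ⟨0, le_refl _, by norm_num, rfl⟩)).2.2.1 V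
        hVsa'.isStarNormal
      rwa [(hL H).2.1] at h8'
    have h9 : T = V := by
      calc T = dh T := by rw [← hdh, hLT]
        _ = mean (al (1 / 2) T) := rfl
        _ = V := by rw [h6, h7]
    rw [h9]
    exact hVsa'
  · have h6 : T = (2 : ℂ)⁻¹ • (P ^ (2 * l - 1) * V + P ^ (2 * (1 - l) - 1) * V) := by
      calc T = mm l T := by rw [← hmm, hLT]
        _ = (2 : ℂ)⁻¹ • (al l T + al (1 - l) T) := rfl
        _ = _ := by rw [halP l (by linarith), halP (1 - l) (by linarith)]
    set S := P ^ (1 - 2 * l) with hS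
    set S' := P ^ (-(1 - 2 * l)) with hS'
    have h7 : R = (2 : ℂ)⁻¹ • (S' + S) := by
      have h8' : T * V = R := by rw [hTinv, hVsa, mul_assoc, hVV, mul_one]
      have k1 : 2 * l - 1 = -(1 - 2 * l) := by ring
      have k2 : 2 * (1 - l) - 1 = 1 - 2 * l := by ring
      rw [← h8', h6, smul_mul_assoc, add_mul, mul_assoc, mul_assoc, hVV, mul_one, mul_one, hS, hS',
        k1, k2]
    -- `S + S⁻¹ ≥ 2`
    have h9 : 2 • (1 : H →L[ℂ] H) ≤ S' + S := by
      set s := P ^ ((1 - 2 * l) / 2) with hs
      set s' := P ^ (-((1 - 2 * l) / 2)) with hs'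
      have i1 : s * s = S := by rw [hs, hS, padd]; congr 1; ring
      have i2 : s' * s' = S' := by rw [hs', hS', padd]; congr 1; ring
      have i3 : s * s' = 1 := by rw [hs, hs', padd, add_neg_cancel, hPz]
      have i4 : s' * s = 1 := by rw [hs, hs', padd, neg_add_cancel, hPz]
      have i5 : star (s - s') = s - s' := by
        rw [star_sub, (IsSelfAdjoint.of_nonneg (CFC.rpow_nonneg : (0 : H →L[ℂ] H) ≤ s)).star_eq,
          (IsSelfAdjoint.of_nonneg (CFC.rpow_nonneg : (0 : H →L[ℂ] H) ≤ s')).star_eq]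
      have i6 : 0 ≤ star (s - s') * (s - s') := star_mul_self_nonneg _
      rw [i5] at i6
      have i7 : (s - s') * (s - s') = S' + S - 2 • (1 : H →L[ℂ] H) := by
        rw [mul_sub, sub_mul, sub_mul, i1, i2, i3, i4, two_smul]
        abel
      rw [i7, sub_nonneg] at i6
      exact i6
    have h10 : (1 : H →L[ℂ] H) ≤ R := by
      rw [h7]
      have i1 : (2 : ℂ)⁻¹ • (S' + S) = (2 : ℝ)⁻¹ • (S' + S) := by
        rw [← Complex.coe_smul]
        norm_num
      rw [i1]
      have i2 : (1 : H →L[ℂ] H) = (2 : ℝ)⁻¹ • (2 • (1 : H →L[ℂ] H)) := by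
        rw [← Nat.cast_smul_eq_nsmul ℝ, smul_smul]
        norm_num
      rw [i2]
      exact smul_le_smul_of_nonneg_left h9 (by norm_num)
    have h11 : (1 : H →L[ℂ] H) ≤ P := by
      have i1 := star_left_conjugate_le_conjugate h10 V
      rw [hVsa, mul_one, hVV, hVRV] at i1
      exact i1
    have h12 : P ≤ 1 := by
      set p := P ^ (1 / 2 : ℝ) with hp
      have i0 : star p = p := (IsSelfAdjoint.of_nonneg (CFC.rpow_nonneg : (0 : H →L[ℂ] H) ≤ p)).star_eq
      have i1 := star_left_conjugate_le_conjugate h10 p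
      rw [i0, mul_one] at i1
      have i2 : p * p = P := by
        rw [hp, padd]
        norm_num
        exact hP1
      have i3 : p * R * p = 1 := by
        rw [hp, hR, padd, padd]
        norm_num
        exact hPz
      rwa [i2, i3] at i1
    have h13 : P = 1 := le_antisymm h12 h11
    have h14 : T = V := by rw [e1, h13, mul_one]
    rw [h14]
    exact hVsa

end Pool.Agent.H88.MT
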