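import Pool.Agent.H88.MT.POL

/-! Module PT1 of mt_modules (helper88): algebra of the polar decomposition. -/

open InnerProductSpace Filter Topology
open scoped ComplexConjugate

namespace Pool.Agent.H88.MT

open Pool.Agent.H48.MT

section

variable {H : Type} [NormedAddCommGroup H] [InnerProductSpace ℂ H] [CompleteSpace H]

lemma starproj_of (V : H →L[ℂ] H) (h : V * star V * V = V) : IsStarProjection (star V * V) := by
  refine ⟨?_, IsSelfAdjoint.star_mul_self V⟩
  change star V * V * (star V * V) = star V * V
  calc star V * V * (star V * V) = star V * (V * star V * V) := by simp only [mul_assoc]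
    _ = star V * V := by rw [h]

lemma star_mul_self_apply_eq_zero (V : H →L[ℂ] H) (x : H) : (star V * V) x = 0 ↔ V x = 0 := by
  constructor
  · intro h
    have h1 : inner ℂ (V x) (V x) = (0 : ℂ) := by
      have h2 : inner ℂ x ((star V * V) x) = (0 : ℂ) := by rw [h, inner_zero_right]
      change inner ℂ x (star V (V x)) = (0 : ℂ) at h2
      rwa [ContinuousLinearMap.star_eq_adjoint, ContinuousLinearMap.adjoint_inner_right] at h2
    exact inner_self_eq_zero.1 h1
  · intro h
    change star V (V x) = 0
    rw [h, map_zero]

end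

theorem mt_PT1 (h0 : T_POL) : T_PT1 := by
  intro H _ _ _ T
  obtain ⟨⟨h1, h2, h3⟩, -⟩ := h0 H T
  have hE := starproj_of (pol T) h1
  have h4 : star (pol T) * pol T * CFC.abs T = CFC.abs T := by
    ext x
    apply ext_inner_right ℂ
    intro y
    set E : H →L[ℂ] H := star (pol T) * pol T with hEdef
    have hEs : star E = E := hE.isSelfAdjoint.star_eq
    -- `y - E y` is in the kernel of `E`
    have h5 : E (y - E y) = 0 := by
      rw [map_sub, sub_eq_zero]
      exact (congrArg (fun A : H →L[ℂ] H => A y) hE.isIdempotentElem).symm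
    have h6 : T (y - E y) = 0 := (h2 _).1 ((star_mul_self_apply_eq_zero (pol T) _).1 h5)
    have h7 : CFC.abs T (y - E y) = 0 := (abs_apply_eq_zero T _).2 h6
    have h8 : inner ℂ (CFC.abs T x) (y - E y) = (0 : ℂ) := by
      have h10 := ContinuousLinearMap.adjoint_inner_left (CFC.abs T) (y - E y) x
      rw [← ContinuousLinearMap.star_eq_adjoint, (abs_sa T).star_eq] at h10
      rw [h10, h7, inner_zero_right]
    have h11 : inner ℂ (CFC.abs T x) y = inner ℂ (CFC.abs T x) (E y) := by
      rw [inner_sub_right, sub_eq_zero] at h8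
      exact h8
    change inner ℂ (E (CFC.abs T x)) y = _
    have h12 := ContinuousLinearMap.adjoint_inner_left E y (CFC.abs T x)
    rw [← ContinuousLinearMap.star_eq_adjoint, hEs] at h12
    rw [h11, h12]
  have h5 : CFC.abs T * (star (pol T) * pol T) = CFC.abs T := by
    have := congrArg star h4
    rwa [star_mul, (abs_sa T).star_eq, hE.isSelfAdjoint.star_eq] at this
  have h6 : ∀ X : H →L[ℂ] H, CFC.abs T * X = 0 → pol T * X = 0 := by
    intro X hX
    ext x
    change pol T (X x) = 0
    rw [h2, ← abs_apply_eq_zero]
    exact congrArg (fun A : H →L[ℂ] H => A x) hX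
  refine ⟨h3, ?_, h1, hE, ?_, h4, h5, h2, abs_apply_eq_zero T, fun x => ?_, norm_abs_apply T,
    ?_, ?_, h6, fun X hX => ?_⟩
  · calc CFC.abs T = star (pol T) * pol T * CFC.abs T := h4.symm
      _ = star (pol T) * (pol T * CFC.abs T) := by rw [mul_assoc]
      _ = star (pol T) * T := by rw [← h3]
  · have h7 : star (pol T) * star (star (pol T)) * star (pol T) = star (pol T) := by
      have := congrArg star h1
      rw [star_mul, star_mul] at this
      rwa [← mul_assoc] at this
    have h8 := starproj_of (star (pol T)) h7
    rwa [star_star] at h8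
  · rw [star_mul_self_apply_eq_zero, h2]
  · have h7 : ‖star (pol T) * pol T‖ = ‖pol T‖ * ‖pol T‖ := CStarRing.norm_star_mul_self
    have h8 : ‖star (pol T) * pol T‖ ≤ 1 := hE.norm_le
    rw [h7] at h8
    nlinarith [norm_nonneg (pol T)]
  · apply le_antisymm
    · refine ContinuousLinearMap.opNorm_le_bound _ (norm_nonneg _) fun x => ?_
      rw [norm_abs_apply]
      exact T.le_opNorm x
    · refine ContinuousLinearMap.opNorm_le_bound _ (norm_nonneg _) fun x => ?_
      rw [← norm_abs_apply]
      exact (CFC.abs T).le_opNorm x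
  · have h7 : CFC.abs T * star X = 0 := by
      have := congrArg star hX
      rwa [star_mul, (abs_sa T).star_eq, star_zero] at this
    have h8 := congrArg star (h6 _ h7)
    rwa [star_mul, star_star, star_zero] at h8

end Pool.Agent.H88.MT
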