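import Pool.Agent.H48.MT.Targets

/-! Module PT2 of mt_modules (helper88): real powers of positive operators. -/

open InnerProductSpace Filter Topology
open scoped ComplexConjugate NNReal

namespace Pool.Agent.H88.MT

open Pool.Agent.H48.MT

section

variable {H : Type} [NormedAddCommGroup H] [InnerProductSpace ℂ H] [CompleteSpace H]

lemma pw_add (P : H →L[ℂ] H) {a b : ℝ} (ha : 0 < a) (hb : 0 < b) :
    P ^ a * P ^ b = P ^ (a + b) := by
  lift a to ℝ≥0 using ha.le
  lift b to ℝ≥0 using hb.le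
  have ha' : 0 < a := by exact_mod_cast ha
  have hb' : 0 < b := by exact_mod_cast hb
  have h : ((a : ℝ) + (b : ℝ)) = ((a + b : ℝ≥0) : ℝ) := by push_cast; ring
  rw [h, ← CFC.nnrpow_eq_rpow ha', ← CFC.nnrpow_eq_rpow hb', ← CFC.nnrpow_eq_rpow (by positivity),
    CFC.nnrpow_add ha' hb']

lemma pw_pw (P : H →L[ℂ] H) (hP : 0 ≤ P) {a b : ℝ} (ha : 0 ≤ a) (hb : 0 ≤ b) :
    (P ^ a) ^ b = P ^ (a * b) := CFC.rpow_rpow_of_exponent_nonneg P a b ha hb hP

lemma pw_star (P : H →L[ℂ] H) (a : ℝ) : star (P ^ a) = P ^ a :=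
  (IsSelfAdjoint.of_nonneg CFC.rpow_nonneg).star_eq

/-- the kernel of the square root -/
lemma pw_half (P : H →L[ℂ] H) {a : ℝ} (ha : 0 < a) (x : H) (h : (P ^ a) x = 0) :
    (P ^ (a / 2)) x = 0 := by
  have h1 : P ^ (a / 2) * P ^ (a / 2) = P ^ a := by
    rw [pw_add P (by positivity) (by positivity)]
    congr 1
    ring
  have h2 : inner ℂ ((P ^ (a / 2)) x) ((P ^ (a / 2)) x) = (0 : ℂ) := by
    have h3 := ContinuousLinearMap.adjoint_inner_left (P ^ (a / 2)) x ((P ^ (a / 2)) x)
    rw [← ContinuousLinearMap.star_eq_adjoint, pw_star] at h3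
    rw [← h3]
    have h4 : (P ^ (a / 2)) ((P ^ (a / 2)) x) = (P ^ a) x :=
      congrArg (fun A : H →L[ℂ] H => A x) h1
    rw [h4, h, inner_zero_left]
  exact inner_self_eq_zero.1 h2

/-- the kernel of a smaller power -/
lemma pw_up (P : H →L[ℂ] H) {a b : ℝ} (ha : 0 < a) (hab : a < b) (x : H) (h : (P ^ a) x = 0) :
    (P ^ b) x = 0 := by
  have h1 : P ^ (b - a) * P ^ a = P ^ b := by
    rw [pw_add P (by linarith) ha]
    congr 1
    ring
  have h2 : (P ^ (b - a)) ((P ^ a) x) = (P ^ b) x := congrArg (fun A : H →L[ℂ] H => A x) h1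
  rw [← h2, h, map_zero]

lemma pw_ker (P : H →L[ℂ] H) {a b : ℝ} (ha : 0 < a) (hb : 0 < b) (x : H) (h : (P ^ a) x = 0) :
    (P ^ b) x = 0 := by
  have h1 : ∀ n : ℕ, (P ^ (a / 2 ^ n)) x = 0 := by
    intro n
    induction n with
    | zero => simpa using h
    | succ n ih =>
      have h2 := pw_half P (a := a / 2 ^ n) (by positivity) x ih
      have h3 : a / 2 ^ (n + 1) = a / 2 ^ n / 2 := by rw [pow_succ]; field_simp
      rw [h3]
      exact h2
  obtain ⟨n, hn⟩ := exists_pow_lt_of_lt_one (show (0 : ℝ) < b / a by positivity)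
    (show (1 / 2 : ℝ) < 1 by norm_num)
  refine pw_up P (a := a / 2 ^ n) (by positivity) ?_ x (h1 n)
  rw [lt_div_iff₀ ha] at hn
  calc a / 2 ^ n = (1 / 2) ^ n * a := by rw [one_div, inv_pow]; field_simp
    _ < b := hn

end

theorem mt_PT2 : T_PT2 := by
  intro H _ _ _ P hP
  have hker : ∀ a : ℝ, 0 < a → ∀ x, (P ^ a) x = 0 ↔ P x = 0 := by
    intro a ha x
    have h1 : (P ^ (1 : ℝ)) = P := CFC.rpow_one P hP
    constructor
    · intro h
      have := pw_ker P ha one_pos x h
      rwa [h1] at this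
    · intro h
      refine pw_ker P one_pos ha x ?_
      rwa [h1]
  have hleft : ∀ a : ℝ, 0 < a → ∀ X : H →L[ℂ] H, P ^ a * X = 0 ↔ P * X = 0 := by
    intro a ha X
    constructor
    · intro h
      ext x
      exact (hker a ha (X x)).1 (congrArg (fun A : H →L[ℂ] H => A x) h)
    · intro h
      ext x
      exact (hker a ha (X x)).2 (congrArg (fun A : H →L[ℂ] H => A x) h)
  have hcomm : ∀ (a : ℝ) (Q X : H →L[ℂ] H), Commute Q X → Commute (Q ^ a) X := by
    intro a Q X h
    exact h.cfc_nnreal _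
  refine ⟨CFC.rpow_zero P hP, CFC.rpow_one P hP, fun a => CFC.rpow_nonneg,
    fun a b ha hb => pw_add P ha hb, fun a b ha hb => pw_pw P hP ha.le hb.le, hker,
    fun a ha X => ⟨hleft a ha X, ?_⟩, fun a ha => ?_, fun a X => hcomm a P X,
    fun a X ha h => ?_, fun r a hr ha => ?_⟩
  · have hPs : star P = P := (IsSelfAdjoint.of_nonneg hP).star_eq
    have h1 := hleft a ha (star X)
    constructor
    · intro h
      have h2 := congrArg star h
      rw [star_mul, pw_star, star_zero] at h2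
      have h3 := congrArg star (h1.1 h2)
      rwa [star_mul, star_star, hPs, star_zero] at h3
    · intro h
      have h2 := congrArg star h
      rw [star_mul, hPs, star_zero] at h2
      have h3 := congrArg star (h1.2 h2)
      rwa [star_mul, star_star, pw_star, star_zero] at h3
  · rcases ha.eq_or_lt with h | h
    · rw [← h, CFC.rpow_zero P hP, Real.rpow_zero]
      exact ContinuousLinearMap.norm_id_le
    · exact (CFC.norm_rpow P h hP).le
  · have h1 : (P ^ a) ^ a⁻¹ = P := by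
      rw [pw_pw P hP ha.le (by positivity), mul_inv_cancel₀ ha.ne', CFC.rpow_one P hP]
    have h2 := hcomm a⁻¹ (P ^ a) X h
    rwa [h1] at h2
  · have hc : (r : ℂ) • P = r • P := Complex.coe_smul r P
    have hc2 : ((r ^ a : ℝ) : ℂ) • P ^ a = (r ^ a : ℝ) • P ^ a := Complex.coe_smul _ _
    have hrP : 0 ≤ r • P := smul_nonneg hr hP
    rw [hc, hc2, CFC.rpow_eq_cfc_real hrP, CFC.rpow_eq_cfc_real hP]
    have hcont : Continuous fun x : ℝ => x ^ a := Real.continuous_rpow_const ha
    have hsa : IsSelfAdjoint P := IsSelfAdjoint.of_nonneg hP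
    rw [← cfc_comp_smul r (fun x : ℝ => x ^ a) P hcont.continuousOn hsa,
      ← cfc_smul (r ^ a) (fun x : ℝ => x ^ a) P hcont.continuousOn]
    refine cfc_congr fun x hx => ?_
    have hx0 : 0 ≤ x := spectrum_nonneg_of_nonneg hP hx
    simp only [smul_eq_mul]
    exact Real.mul_rpow hr hx0

end Pool.Agent.H88.MT
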