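import Pool.Agent.H48.MT.Targets

/-! Module PT3 of mt_modules (helper88): real powers of invertible positive operators. -/

open InnerProductSpace Filter Topology
open scoped ComplexConjugate NNReal

namespace Pool.Agent.H88.MT

open Pool.Agent.H48.MT

theorem mt_PT3 : T_PT3 := by
  intro H _ _ _ P hP hu
  have hs : IsStrictlyPositive P := IsStrictlyPositive.iff_of_unital.2 ⟨hP, hu⟩
  have hadd : ∀ a b : ℝ, P ^ a * P ^ b = P ^ (a + b) := fun a b => (CFC.rpow_add hu).symm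
  have h1 : P ^ (1 : ℝ) = P := CFC.rpow_one P hP
  have h0 : P ^ (0 : ℝ) = 1 := CFC.rpow_zero P hP
  have hm : P * P ^ (-1 : ℝ) = 1 := by
    calc P * P ^ (-1 : ℝ) = P ^ (1 : ℝ) * P ^ (-1 : ℝ) := by rw [h1]
      _ = 1 := by rw [hadd, add_neg_cancel, h0]
  have hm' : P ^ (-1 : ℝ) * P = 1 := by
    calc P ^ (-1 : ℝ) * P = P ^ (-1 : ℝ) * P ^ (1 : ℝ) := by rw [h1]
      _ = 1 := by rw [hadd, neg_add_cancel, h0]
  refine ⟨hadd, fun a b => ?_, fun a => hu.cfcRpow a hP, hm, fun Q hQ h => ?_, fun h => ?_⟩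
  · by_cases ha : a = 0
    · rw [ha, h0, zero_mul, h0, CFC.one_rpow]
    · exact CFC.rpow_rpow P a b ha hs
  · calc Q = P ^ (-1 : ℝ) * P * Q := by rw [hm', one_mul]
      _ = P ^ (-1 : ℝ) := by rw [mul_assoc, h, mul_one]
  · have h2 : CFC.sqrt (P * P) = P := CFC.sqrt_mul_self P hP
    rw [h, CFC.sqrt_one] at h2
    exact h2.symm

end Pool.Agent.H88.MT
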