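import Pool.Agent.H88.MT.POL

/-! Module PT4 of mt_modules (helper88): uniqueness of the polar decomposition. -/

open InnerProductSpace Filter Topology
open scoped ComplexConjugate

namespace Pool.Agent.H88.MT

open Pool.Agent.H48.MT

theorem mt_PT4 (h0 : T_POL) : T_PT4 := by
  intro H _ _ _ T V P hP hT hV hVP hker
  have hPs : star P = P := (IsSelfAdjoint.of_nonneg hP).star_eq
  have h1 : star T * T = P * P := by
    rw [hT, star_mul, hPs]
    calc P * star V * (V * P) = P * (star V * V * P) := by simp only [mul_assoc]
      _ = P * P := by rw [hVP]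
  have h2 : P = CFC.abs T := by
    unfold CFC.abs
    rw [h1]
    exact (CFC.sqrt_mul_self P hP).symm
  refine ⟨h2, (h0 H T).2 V ⟨hV, fun x => ⟨fun hx => ?_, fun hx => ?_⟩, by rw [← h2]; exact hT⟩⟩
  · have h3 : P * (star V * V) = P := by
      have := congrArg star hVP
      rw [star_mul, hPs, star_mul, star_star] at this
      exact this
    have h4 : P x = 0 := by
      have h5 : P x = P (star V (V x)) := (congrArg (fun A : H →L[ℂ] H => A x) h3).symm
      rw [h5, hx, map_zero, map_zero]
    rw [hT]
    change V (P x) = 0
    rw [h4, map_zero]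
  · apply hker
    have h5 : P x = star V (V (P x)) := (congrArg (fun A : H →L[ℂ] H => A x) hVP).symm
    have h6 : V (P x) = 0 := by
      rw [hT] at hx
      exact hx
    rw [h5, h6, map_zero]

end Pool.Agent.H88.MT
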