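import Pool.Agent.H48.MT.Targets

/-! Module PT8 of mt_modules (helper88): invertible operators. -/

open InnerProductSpace Filter Topology
open scoped ComplexConjugate NNReal

namespace Pool.Agent.H88.MT

open Pool.Agent.H48.MT

theorem mt_PT8 (_h1 : T_POL) (h2 : T_PT1) (h3 : T_PT3) : T_PT8 := by
  intro H _ _ _ T hT
  obtain ⟨e1, e2, e3, -, -, -⟩ := h2 H T
  have hs : IsUnit (star T * T) := (IsUnit.star hT).mul hT
  rw [← CFC.abs_mul_abs] at hs
  have hP : IsUnit (CFC.abs T) := (Commute.isUnit_mul_iff (Commute.refl _)).1 hs |>.1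
  obtain ⟨hadd, -, -, hm, -⟩ := h3 H (CFC.abs T) (CFC.abs_nonneg T) hP
  have hPone : (CFC.abs T) ^ (1 : ℝ) = CFC.abs T := CFC.rpow_one _ (CFC.abs_nonneg T)
  have hV : pol T = T * CFC.abs T ^ (-1 : ℝ) := by
    calc pol T = pol T * (CFC.abs T * CFC.abs T ^ (-1 : ℝ)) := by rw [hm, mul_one]
      _ = pol T * CFC.abs T * CFC.abs T ^ (-1 : ℝ) := by rw [mul_assoc]
      _ = T * CFC.abs T ^ (-1 : ℝ) := by rw [← e1]
  have hVu : IsUnit (pol T) := by
    rw [hV]
    refine hT.mul ?_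
    exact hP.cfcRpow (-1) (CFC.abs_nonneg T)
  obtain ⟨u, hu⟩ := hVu
  have hVs : pol T * star (pol T) = 1 := by
    have h4 : pol T * star (pol T) * pol T = 1 * pol T := by rw [e3, one_mul]
    rw [← hu] at h4 ⊢
    exact (Units.mul_left_inj u).1 h4
  have hsV : star (pol T) * pol T = 1 := by
    have h4 : pol T * (star (pol T) * pol T) = pol T * 1 := by rw [← mul_assoc, e3, mul_one]
    rw [← hu] at h4 ⊢
    exact (Units.mul_right_inj u).1 h4
  refine ⟨hP, hVs, hsV, fun a => ?_⟩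
  unfold al
  have h5 : T * CFC.abs T ^ (-a) = pol T * CFC.abs T ^ (1 - a) := by
    have h6 : CFC.abs T * CFC.abs T ^ (-a) = CFC.abs T ^ (1 - a) := by
      calc CFC.abs T * CFC.abs T ^ (-a) = CFC.abs T ^ (1 : ℝ) * CFC.abs T ^ (-a) := by rw [hPone]
        _ = _ := by rw [hadd]; congr 1
    calc T * CFC.abs T ^ (-a) = pol T * CFC.abs T * CFC.abs T ^ (-a) := by rw [← e1]
      _ = pol T * (CFC.abs T * CFC.abs T ^ (-a)) := by rw [mul_assoc]
      _ = _ := by rw [h6]
  rw [mul_assoc, mul_assoc, h5]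

end Pool.Agent.H88.MT
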