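import Pool.Agent.H88.MT.PT2

/-! Module TOP of mt_modules (helper88): norming vectors of fixed operators. -/

open InnerProductSpace Filter Topology
open scoped ComplexConjugate

namespace Pool.Agent.H88.MT

open Pool.Agent.H48.MT

section

variable {H : Type} [NormedAddCommGroup H] [InnerProductSpace ℂ H] [CompleteSpace H]

lemma top_pt (P : H →L[ℂ] H) (hP : 0 ≤ P) (r : ℝ) (hr : ‖P‖ ≤ r) (y : H) (hy : ‖y‖ ≤ 1) :
    ‖P y - (r : ℂ) • y‖ ^ 2 ≤ r ^ 2 - ‖P y‖ ^ 2 := by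
  have hr0 : 0 ≤ r := (norm_nonneg _).trans hr
  set s : H →L[ℂ] H := P ^ (1 / 2 : ℝ) with hs
  have hss : s * s = P := by
    rw [hs, pw_add P (by norm_num) (by norm_num)]
    norm_num
    exact CFC.rpow_one P hP
  have hsa : star s = s := pw_star P _
  have h1 : ∀ z : H, inner ℂ z (P z) = ((‖s z‖ ^ 2 : ℝ) : ℂ) := by
    intro z
    have h2 : P z = s (s z) := by rw [← hss]; rfl
    have h3 := ContinuousLinearMap.adjoint_inner_left s (s z) z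
    rw [← ContinuousLinearMap.star_eq_adjoint, hsa] at h3
    rw [h2, ← h3, inner_self_eq_norm_sq_to_K]
    norm_cast
  have h2 : ‖P y‖ ^ 2 ≤ r * ‖s y‖ ^ 2 := by
    have h3 : ‖s‖ ^ 2 ≤ r := by
      have h4 : ‖star s * s‖ = ‖s‖ * ‖s‖ := CStarRing.norm_star_mul_self
      rw [hsa, hss] at h4
      rw [pow_two, ← h4]
      exact hr
    have h4 : ‖P y‖ ≤ ‖s‖ * ‖s y‖ := by
      have h5 : P y = s (s y) := by rw [← hss]; rfl
      rw [h5]
      exact s.le_opNorm _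
    calc ‖P y‖ ^ 2 ≤ (‖s‖ * ‖s y‖) ^ 2 := pow_le_pow_left₀ (norm_nonneg _) h4 2
      _ = ‖s‖ ^ 2 * ‖s y‖ ^ 2 := by ring
      _ ≤ r * ‖s y‖ ^ 2 := mul_le_mul_of_nonneg_right h3 (by positivity)
  have h3 : RCLike.re (inner ℂ (P y) ((r : ℂ) • y)) = r * ‖s y‖ ^ 2 := by
    rw [inner_smul_right, ← inner_conj_symm, h1 y, Complex.conj_ofReal]
    simp [← Complex.ofReal_mul, ← Complex.ofReal_pow]
  rw [@norm_sub_sq ℂ, h3, norm_smul, Complex.norm_real, Real.norm_eq_abs, abs_of_nonneg hr0]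
  have h4 : (r * ‖y‖) ^ 2 ≤ r ^ 2 := by
    rw [mul_pow]
    have : ‖y‖ ^ 2 ≤ 1 := pow_le_one₀ (norm_nonneg _) hy
    nlinarith [sq_nonneg r]
  linarith

lemma top_A (P : H →L[ℂ] H) (hP : 0 ≤ P) (r : ℝ) (hr : ‖P‖ ≤ r) (y : ℕ → H)
    (hy : ∀ i, ‖y i‖ ≤ 1) (h : Tendsto (fun i => ‖P (y i)‖) atTop (𝓝 r)) :
    Tendsto (fun i => ‖P (y i) - (r : ℂ) • y i‖) atTop (𝓝 0) := by
  have h1 : Tendsto (fun i => r ^ 2 - ‖P (y i)‖ ^ 2) atTop (𝓝 0) := by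
    have := (tendsto_const_nhds (x := r ^ 2)).sub (h.pow 2)
    rwa [sub_self] at this
  have h2 : Tendsto (fun i => ‖P (y i) - (r : ℂ) • y i‖ ^ 2) atTop (𝓝 0) :=
    squeeze_zero (fun i => by positivity) (fun i => top_pt P hP r hr (y i) (hy i)) h1
  have h3 := h2.sqrt
  rw [Real.sqrt_zero] at h3
  refine h3.congr fun i => ?_
  rw [Real.sqrt_sq (norm_nonneg _)]

lemma top_norm_pw (P : H →L[ℂ] H) (hP : 0 ≤ P) (r : ℝ) (hr : ‖P‖ ≤ r) (b : ℝ) (hb : 0 < b) :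
    ‖P ^ b‖ ≤ r ^ b := by
  rw [CFC.norm_rpow P hb hP]
  exact Real.rpow_le_rpow (norm_nonneg _) hr hb.le

lemma top_A2 (P : H →L[ℂ] H) (hP : 0 ≤ P) (r : ℝ) (hr : ‖P‖ ≤ r) (hr0 : 0 < r) (y : ℕ → H)
    (hy : ∀ i, ‖y i‖ ≤ 1) (h : Tendsto (fun i => ‖P (y i)‖) atTop (𝓝 r)) (b : ℝ) (hb : 0 < b)
    (hb1 : b < 1) : Tendsto (fun i => ‖(P ^ b) (y i) - ((r ^ b : ℝ) : ℂ) • y i‖) atTop (𝓝 0) := by
  apply top_A (P ^ b) CFC.rpow_nonneg (r ^ b) (top_norm_pw P hP r hr b hb) y hy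
  have hlow : ∀ i, r ^ (b - 1) * ‖P (y i)‖ ≤ ‖(P ^ b) (y i)‖ := by
    intro i
    have h1 : P (y i) = (P ^ (1 - b)) ((P ^ b) (y i)) := by
      have h2 : P ^ (1 - b) * P ^ b = P := by
        rw [pw_add P (by linarith) hb, sub_add_cancel]
        exact CFC.rpow_one P hP
      exact (congrArg (fun A : H →L[ℂ] H => A (y i)) h2).symm
    have h2 : ‖P (y i)‖ ≤ r ^ (1 - b) * ‖(P ^ b) (y i)‖ := by
      rw [h1]
      exact (ContinuousLinearMap.le_opNorm _ _).trans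
        (mul_le_mul_of_nonneg_right (top_norm_pw P hP r hr _ (by linarith)) (norm_nonneg _))
    calc r ^ (b - 1) * ‖P (y i)‖ ≤ r ^ (b - 1) * (r ^ (1 - b) * ‖(P ^ b) (y i)‖) :=
          mul_le_mul_of_nonneg_left h2 (Real.rpow_nonneg hr0.le _)
      _ = ‖(P ^ b) (y i)‖ := by
          rw [← mul_assoc, ← Real.rpow_add hr0]
          simp
  have hup : ∀ i, ‖(P ^ b) (y i)‖ ≤ r ^ b := by
    intro i
    calc ‖(P ^ b) (y i)‖ ≤ ‖P ^ b‖ * ‖y i‖ := ContinuousLinearMap.le_opNorm _ _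
      _ ≤ r ^ b * 1 := mul_le_mul (top_norm_pw P hP r hr b hb) (hy i) (norm_nonneg _)
          (Real.rpow_nonneg hr0.le _)
      _ = r ^ b := mul_one _
  have hlim : Tendsto (fun i => r ^ (b - 1) * ‖P (y i)‖) atTop (𝓝 (r ^ b)) := by
    have := h.const_mul (r ^ (b - 1))
    have h3 : r ^ (b - 1) * r = r ^ b := by
      rw [← Real.rpow_add_one hr0.ne', sub_add_cancel]
    rwa [h3] at this
  exact tendsto_of_tendsto_of_tendsto_of_le_of_le hlim tendsto_const_nhds hlow hup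

/-- from a smaller power back to `P` -/
lemma top_C (P : H →L[ℂ] H) (hP : 0 ≤ P) (r : ℝ) (hr : ‖P‖ ≤ r) (hr0 : 0 < r) (y : ℕ → H)
    (hy : ∀ i, ‖y i‖ ≤ 1) (b : ℝ) (hb : 0 < b)
    (h : Tendsto (fun i => ‖(P ^ b) (y i)‖) atTop (𝓝 (r ^ b))) :
    Tendsto (fun i => ‖P (y i)‖) atTop (𝓝 r) := by
  set Q := P ^ b with hQ
  set q := r ^ b with hq
  have hq0 : 0 < q := Real.rpow_pos_of_pos hr0 _
  have hQq : ‖Q‖ ≤ q := top_norm_pw P hP r hr b hb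
  have h1 := top_A Q CFC.rpow_nonneg q hQq y hy h
  -- the norms tend to one
  have hy1 : Tendsto (fun i => ‖y i‖) atTop (𝓝 1) := by
    have hlim : Tendsto (fun i => q⁻¹ * ‖Q (y i)‖) atTop (𝓝 1) := by
      have := h.const_mul q⁻¹
      rwa [inv_mul_cancel₀ hq0.ne'] at this
    refine tendsto_of_tendsto_of_tendsto_of_le_of_le hlim tendsto_const_nhds (fun i => ?_) hy
    calc q⁻¹ * ‖Q (y i)‖ ≤ q⁻¹ * (q * ‖y i‖) := by
          apply mul_le_mul_of_nonneg_left _ (by positivity)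
          exact (Q.le_opNorm _).trans (mul_le_mul_of_nonneg_right hQq (norm_nonneg _))
      _ = ‖y i‖ := by rw [← mul_assoc, inv_mul_cancel₀ hq0.ne', one_mul]
  have hn : ∀ n : ℕ, Tendsto (fun i => ‖(Q ^ n) (y i) - ((q ^ n : ℝ) : ℂ) • y i‖) atTop (𝓝 0) := by
    intro n
    induction n with
    | zero => simp
    | succ n ih =>
      have h2 : ∀ i, ‖(Q ^ (n + 1)) (y i) - ((q ^ (n + 1) : ℝ) : ℂ) • y i‖ ≤
          ‖Q‖ * ‖(Q ^ n) (y i) - ((q ^ n : ℝ) : ℂ) • y i‖ + q ^ n * ‖Q (y i) - (q : ℂ) • y i‖ := by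
        intro i
        have h3 : (Q ^ (n + 1)) (y i) - ((q ^ (n + 1) : ℝ) : ℂ) • y i =
            Q ((Q ^ n) (y i) - ((q ^ n : ℝ) : ℂ) • y i) +
              ((q ^ n : ℝ) : ℂ) • (Q (y i) - (q : ℂ) • y i) := by
          have h4 : (Q ^ (n + 1)) (y i) = Q ((Q ^ n) (y i)) := by rw [pow_succ']; rfl
          rw [h4, map_sub, map_smul, smul_sub, smul_smul]
          push_cast
          rw [pow_succ]
          abel
        rw [h3]
        refine (norm_add_le _ _).trans (add_le_add (Q.le_opNorm _) ?_)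
        rw [norm_smul, Complex.norm_real, Real.norm_eq_abs, abs_of_nonneg (by positivity)]
      have h5 := (ih.const_mul ‖Q‖).add (h1.const_mul (q ^ n))
      rw [mul_zero, mul_zero, add_zero] at h5
      exact squeeze_zero (fun i => norm_nonneg _) h2 h5
  obtain ⟨n, hn1⟩ := exists_nat_gt b⁻¹
  have hbn : 1 < b * n := by
    rwa [inv_lt_iff_one_lt_mul₀ hb, mul_comm] at hn1
  have hn0 : (0 : ℝ) < n := (inv_pos.2 hb).trans hn1
  have hQn : Q ^ n = P ^ (b * n - 1) * P := by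
    have h2 : Q ^ n = P ^ (b * n) := by
      rw [← CFC.rpow_natCast Q n CFC.rpow_nonneg, hQ, pw_pw P hP hb.le (Nat.cast_nonneg _)]
    have h3 : P ^ (b * n - 1) * P ^ (1 : ℝ) = P ^ (b * n) := by
      rw [pw_add P (by linarith) one_pos, sub_add_cancel]
    rw [h2, ← h3]
    congr 1
    exact CFC.rpow_one P hP
  have hlimn : Tendsto (fun i => q ^ n * ‖y i‖ - ‖(Q ^ n) (y i) - ((q ^ n : ℝ) : ℂ) • y i‖) atTop
      (𝓝 (q ^ n)) := by
    have := (hy1.const_mul (q ^ n)).sub (hn n)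
    rwa [mul_one, sub_zero] at this
  have hlow : ∀ i, (r ^ (b * n - 1))⁻¹ * (q ^ n * ‖y i‖ -
      ‖(Q ^ n) (y i) - ((q ^ n : ℝ) : ℂ) • y i‖) ≤ ‖P (y i)‖ := by
    intro i
    have hpos : 0 < r ^ (b * n - 1) := Real.rpow_pos_of_pos hr0 _
    rw [inv_mul_le_iff₀ hpos]
    have h2 : q ^ n * ‖y i‖ = ‖((q ^ n : ℝ) : ℂ) • y i‖ := by
      rw [norm_smul, Complex.norm_real, Real.norm_eq_abs, abs_of_nonneg (by positivity)]
    have h3 : q ^ n * ‖y i‖ - ‖(Q ^ n) (y i) - ((q ^ n : ℝ) : ℂ) • y i‖ ≤ ‖(Q ^ n) (y i)‖ := by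
      rw [h2, sub_le_iff_le_add]
      have h4 : ((q ^ n : ℝ) : ℂ) • y i = (Q ^ n) (y i) -
          ((Q ^ n) (y i) - ((q ^ n : ℝ) : ℂ) • y i) := by abel
      calc ‖((q ^ n : ℝ) : ℂ) • y i‖ = ‖(Q ^ n) (y i) -
          ((Q ^ n) (y i) - ((q ^ n : ℝ) : ℂ) • y i)‖ := by rw [← h4]
        _ ≤ _ := norm_sub_le _ _
    refine h3.trans ?_
    rw [hQn]
    change ‖(P ^ (b * n - 1)) (P (y i))‖ ≤ _
    exact (ContinuousLinearMap.le_opNorm _ _).trans (mul_le_mul_of_nonneg_right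
      (top_norm_pw P hP r hr _ (by linarith)) (norm_nonneg _))
  have hlim2 : Tendsto (fun i => (r ^ (b * n - 1))⁻¹ * (q ^ n * ‖y i‖ -
      ‖(Q ^ n) (y i) - ((q ^ n : ℝ) : ℂ) • y i‖)) atTop (𝓝 r) := by
    have h2 := hlimn.const_mul (r ^ (b * n - 1))⁻¹
    have h3 : (r ^ (b * n - 1))⁻¹ * q ^ n = r := by
      rw [hq, ← Real.rpow_natCast (r ^ b) n, ← Real.rpow_mul hr0.le, ← Real.rpow_neg hr0.le,
        ← Real.rpow_add hr0]
      have : -(b * n - 1) + b * n = 1 := by ring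
      rw [this, Real.rpow_one]
    rwa [h3] at h2
  refine tendsto_of_tendsto_of_tendsto_of_le_of_le hlim2 tendsto_const_nhds hlow fun i => ?_
  calc ‖P (y i)‖ ≤ ‖P‖ * ‖y i‖ := P.le_opNorm _
    _ ≤ r * 1 := mul_le_mul hr (hy i) (norm_nonneg _) hr0.le
    _ = r := mul_one r

/-- half sums -/
lemma top_B (T A B : H →L[ℂ] H) (r : ℝ) (hT : T = (2 : ℂ)⁻¹ • (A + B)) (hA : ‖A‖ ≤ r)
    (hB : ‖B‖ ≤ r) (e : ℕ → H) (he : ∀ i, ‖e i‖ = 1)
    (h : Tendsto (fun i => ‖T (e i)‖) atTop (𝓝 r)) :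
    Tendsto (fun i => ‖A (e i)‖) atTop (𝓝 r) := by
  have hlim : Tendsto (fun i => 2 * ‖T (e i)‖ - r) atTop (𝓝 r) := by
    have := (h.const_mul 2).sub (tendsto_const_nhds (x := r))
    have h2 : 2 * r - r = r := by ring
    rwa [h2] at this
  have hb : ∀ (C : H →L[ℂ] H), ‖C‖ ≤ r → ∀ i, ‖C (e i)‖ ≤ r := by
    intro C hC i
    have := C.le_opNorm (e i)
    rw [he i, mul_one] at this
    exact this.trans hC
  refine tendsto_of_tendsto_of_tendsto_of_le_of_le hlim tendsto_const_nhds (fun i => ?_) (hb A hA)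
  have h1 : ‖T (e i)‖ ≤ 2⁻¹ * (‖A (e i)‖ + ‖B (e i)‖) := by
    rw [hT]
    change ‖(2 : ℂ)⁻¹ • (A (e i) + B (e i))‖ ≤ _
    rw [norm_smul]
    have : ‖(2 : ℂ)⁻¹‖ = 2⁻¹ := by norm_num
    rw [this]
    exact mul_le_mul_of_nonneg_left (norm_add_le _ _) (by norm_num)
  have h2 := hb B hB i
  linarith

/-- the final step -/
lemma top_fin (T V P : H →L[ℂ] H) (hT : T = V * P) (hP : 0 ≤ P) (hV : ‖V‖ ≤ 1) (r : ℝ)
    (hPr : ‖P‖ ≤ r) (hTP : ∀ x, ‖P x‖ = ‖T x‖) (e : ℕ → H) (he : ∀ i, ‖e i‖ = 1)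
    (h : Tendsto (fun i => ‖T (e i)‖) atTop (𝓝 r))
    (h2 : Tendsto (fun i => ‖P (V (e i))‖) atTop (𝓝 r)) :
    Tendsto (fun i => ‖T (T (e i))‖) atTop (𝓝 (r ^ 2)) := by
  have hr0 : 0 ≤ r := (norm_nonneg _).trans hPr
  have h3 := top_A P hP r hPr e (fun i => (he i).le) (by simpa only [hTP] using h)
  have h4 : Tendsto (fun i => r * ‖P (V (e i))‖) atTop (𝓝 (r ^ 2)) := by
    have := h2.const_mul r
    rwa [← pow_two] at this
  have h5 : ∀ i, |‖T (T (e i))‖ - r * ‖P (V (e i))‖| ≤ ‖T‖ * ‖P (e i) - (r : ℂ) • e i‖ := by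
    intro i
    have e1 : r * ‖P (V (e i))‖ = ‖T ((r : ℂ) • V (e i))‖ := by
      rw [map_smul, norm_smul, Complex.norm_real, Real.norm_eq_abs, abs_of_nonneg hr0, hTP]
    rw [e1]
    refine (abs_norm_sub_norm_le _ _).trans ?_
    rw [← map_sub]
    refine (T.le_opNorm _).trans (mul_le_mul_of_nonneg_left ?_ (norm_nonneg _))
    have e2 : T (e i) - (r : ℂ) • V (e i) = V (P (e i) - (r : ℂ) • e i) := by
      rw [map_sub, map_smul, hT]
      rfl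
    rw [e2]
    calc ‖V (P (e i) - (r : ℂ) • e i)‖ ≤ ‖V‖ * ‖P (e i) - (r : ℂ) • e i‖ := V.le_opNorm _
      _ ≤ 1 * ‖P (e i) - (r : ℂ) • e i‖ := mul_le_mul_of_nonneg_right hV (norm_nonneg _)
      _ = _ := one_mul _
  have h6 : Tendsto (fun i => ‖T (T (e i))‖ - r * ‖P (V (e i))‖) atTop (𝓝 0) := by
    have h7 := h3.const_mul ‖T‖
    rw [mul_zero] at h7
    exact squeeze_zero_norm (fun i => by rw [Real.norm_eq_abs]; exact h5 i) h7
  have h8 := h6.add h4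
  rw [zero_add] at h8
  refine h8.congr fun i => ?_
  ring

/-- the case of `P^l V P^(1-l)` -/
lemma top_mid (V P : H →L[ℂ] H) (hP : 0 ≤ P) (hV : ‖V‖ ≤ 1) (r : ℝ) (hr0 : 0 < r)
    (hPr : ‖P‖ ≤ r) (l : ℝ) (hl : 0 < l) (hl1 : l < 1) (e : ℕ → H) (he : ∀ i, ‖e i‖ = 1)
    (h : Tendsto (fun i => ‖P (e i)‖) atTop (𝓝 r))
    (h2 : Tendsto (fun i => ‖(P ^ l * V * P ^ (1 - l)) (e i)‖) atTop (𝓝 r)) :
    Tendsto (fun i => ‖P (V (e i))‖) atTop (𝓝 r) := by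
  have hy : ∀ i, ‖V (e i)‖ ≤ 1 := fun i => by
    have := V.le_opNorm (e i)
    rw [he i, mul_one] at this
    exact this.trans hV
  apply top_C P hP r hPr hr0 _ hy l hl
  have h3 := top_A2 P hP r hPr hr0 e (fun i => (he i).le) h (1 - l) (by linarith) (by linarith)
  set q := r ^ (1 - l) with hq
  have hq0 : 0 < q := Real.rpow_pos_of_pos hr0 _
  have h5 : ∀ i, |‖(P ^ l * V * P ^ (1 - l)) (e i)‖ - q * ‖(P ^ l) (V (e i))‖| ≤
      ‖P ^ l * V‖ * ‖(P ^ (1 - l)) (e i) - (q : ℂ) • e i‖ := by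
    intro i
    have e1 : q * ‖(P ^ l) (V (e i))‖ = ‖(P ^ l * V) ((q : ℂ) • e i)‖ := by
      rw [map_smul, norm_smul, Complex.norm_real, Real.norm_eq_abs, abs_of_nonneg hq0.le]
      rfl
    have e2 : (P ^ l * V * P ^ (1 - l)) (e i) = (P ^ l * V) ((P ^ (1 - l)) (e i)) := rfl
    rw [e1, e2]
    refine (abs_norm_sub_norm_le _ _).trans ?_
    rw [← map_sub]
    exact ContinuousLinearMap.le_opNorm _ _
  have h6 : Tendsto (fun i => q * ‖(P ^ l) (V (e i))‖ - ‖(P ^ l * V * P ^ (1 - l)) (e i)‖) atTop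
      (𝓝 0) := by
    have h7 := h3.const_mul ‖P ^ l * V‖
    rw [mul_zero] at h7
    exact squeeze_zero_norm (fun i => by rw [Real.norm_eq_abs, abs_sub_comm]; exact h5 i) h7
  have h7 := (h6.add h2).const_mul q⁻¹
  rw [zero_add] at h7
  have h8 : q⁻¹ * r = r ^ l := by
    rw [hq, ← Real.rpow_neg hr0.le, ← Real.rpow_add_one hr0.ne']
    congr 1
    ring
  rw [h8] at h7
  refine h7.congr fun i => ?_
  rw [sub_add_cancel, ← mul_assoc, inv_mul_cancel₀ hq0.ne', one_mul]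

end

theorem mt_TOP (h1 : T_PT1) (hLam : T_LAM) : T_TOP := by
  intro H _ _ _ L hL T hLT e he h
  obtain ⟨t1, -, -, -, -, -, -, -, -, -, t2, t3, t4, -, -⟩ := h1 H T
  obtain ⟨al01, mm0, hal⟩ := hLam H
  have hP0 : 0 ≤ CFC.abs T := CFC.abs_nonneg T
  have hP : Tendsto (fun i => ‖CFC.abs T (e i)‖) atTop (𝓝 ‖T‖) := by
    simpa only [t2] using h
  by_cases hr : ‖T‖ = 0
  · have hT0 : T = 0 := norm_eq_zero.1 hr
    rw [hT0]
    simp
  have hr0 : 0 < ‖T‖ := lt_of_le_of_ne (norm_nonneg _) (Ne.symm hr)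
  apply top_fin T (pol T) (CFC.abs T) t1 hP0 t3 ‖T‖ t4.le t2 e he h
  have hnorm : ∀ a : ℝ, 0 ≤ a → a ≤ 1 → ‖al a T‖ ≤ ‖T‖ := fun a ha ha1 => (hal a ha ha1).2.2.1 T
  rcases hL with hdh | ⟨l, hl0, hl1, hmm⟩
  · have h2 : T = (2 : ℂ)⁻¹ • (al (1 / 2) T + CFC.abs (al (1 / 2) T) * pol (al (1 / 2) T)) := by
      calc T = dh T := by rw [← hdh, hLT]
        _ = _ := rfl
    obtain ⟨-, -, -, -, -, -, -, -, -, -, -, s3, s4, -, -⟩ := h1 H (al (1 / 2) T)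
    have h3 : ‖CFC.abs (al (1 / 2) T) * pol (al (1 / 2) T)‖ ≤ ‖T‖ := by
      calc ‖CFC.abs (al (1 / 2) T) * pol (al (1 / 2) T)‖ ≤
          ‖CFC.abs (al (1 / 2) T)‖ * ‖pol (al (1 / 2) T)‖ := norm_mul_le _ _
        _ ≤ ‖T‖ * 1 := by
            apply mul_le_mul _ s3 (norm_nonneg _) (norm_nonneg _)
            rw [s4]
            exact hnorm _ (by norm_num) (by norm_num)
        _ = ‖T‖ := mul_one _
    have h4 := top_B T _ _ ‖T‖ h2 (hnorm _ (by norm_num) (by norm_num)) h3 e he h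
    exact top_mid (pol T) (CFC.abs T) hP0 t3 ‖T‖ hr0 t4.le (1 / 2) (by norm_num) (by norm_num) e he
      hP h4
  · have h2 : T = (2 : ℂ)⁻¹ • (al l T + al (1 - l) T) := by
      calc T = mm l T := by rw [← hmm, hLT]
        _ = _ := rfl
    rcases hl0.eq_or_lt with h0 | h0
    · have h3 : T = (2 : ℂ)⁻¹ • (al (1 - l) T + al l T) := by rw [add_comm]; exact h2
      have h4 := top_B T _ _ ‖T‖ h3 (hnorm _ (by linarith) (by linarith))
        (hnorm _ (by linarith) (by linarith)) e he h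
      rw [← h0, sub_zero, (al01 T).2] at h4
      exact h4
    · have h4 := top_B T _ _ ‖T‖ h2 (hnorm _ (by linarith) (by linarith))
        (hnorm _ (by linarith) (by linarith)) e he h
      exact top_mid (pol T) (CFC.abs T) hP0 t3 ‖T‖ hr0 t4.le l h0 (by linarith) e he hP h4

end Pool.Agent.H88.MT
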