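import Pool.Agent.H48.MT.Targets3
import Pool.Agent.H48.MT.Unit

/-! Module FS1 of mt_modules (helper88): operator theory for operation 2, first part. -/

open InnerProductSpace Filter Topology
open scoped ComplexConjugate

namespace Pool.Agent.H88.MT

open Pool.Agent.H48.MT

section

variable {H : Type} [NormedAddCommGroup H] [InnerProductSpace ℂ H] [CompleteSpace H]

lemma fs1_inner (F : H →L[ℂ] H) (x y : H) : inner ℂ (star F y) x = inner ℂ y (F x) := by
  rw [ContinuousLinearMap.star_eq_adjoint, ContinuousLinearMap.adjoint_inner_left]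

lemma fs1_ker (F : H →L[ℂ] H) (hii : ∀ Y, jp F Y * jp F Y = 0 → Y ^ 4 = 0) (w : H)
    (hw : F w = 0) : w = 0 := by
  by_contra hne
  have h1 : jp F (ro w w) = (2 : ℂ)⁻¹ • ro w (star F w) := by
    rw [jp_ro, hw, ro_zero_left, zero_add]
  have h2 : jp F (ro w w) * jp F (ro w w) = 0 := by
    rw [h1, smul_mul_smul_comm, ro_mul_ro, fs1_inner, hw, inner_zero_right, zero_smul, smul_zero]
  have h3 := hii _ h2
  have h4 : ∀ n : ℕ, ((ro w w) ^ n) w = (inner ℂ w w) ^ n • w := by
    intro n
    induction n with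
    | zero => simp
    | succ n ih =>
      rw [pow_succ' (ro w w)]
      change ro w w (((ro w w) ^ n) w) = _
      rw [ih, map_smul, ro_apply, smul_smul, ← pow_succ]
  have h5 := h4 4
  rw [h3] at h5
  have h6 : (inner ℂ w w : ℂ) ^ 4 • w = 0 := h5.symm
  rcases smul_eq_zero.1 h6 with h7 | h7
  · exact hne (inner_self_eq_zero.1 (pow_eq_zero_iff (by norm_num) |>.1 h7))
  · exact hne h7

lemma fs1_span (F : H →L[ℂ] H) (hii : ∀ Y, jp F Y * jp F Y = 0 → Y ^ 4 = 0) (x : H) :
    ∃ a b c : ℂ, F x = a • x + b • F (F x) + c • F (F (F (F x))) := by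
  by_contra hcon
  set D : Submodule ℂ H := Submodule.span ℂ {x, F (F x), F (F (F (F x)))} with hD
  have hnot : F x ∉ D := by
    intro h
    obtain ⟨a, b, c, habc⟩ := Submodule.mem_span_triple.1 h
    exact hcon ⟨a, b, c, habc.symm⟩
  have hfin : FiniteDimensional ℂ D := by
    rw [hD]
    exact FiniteDimensional.span_of_finite ℂ (by simp)
  set y : H := F x - D.starProjection (F x) with hy
  have hyD : y ∈ Dᗮ := Submodule.sub_starProjection_mem_orthogonal (F x)
  have hy0 : y ≠ 0 := by
    intro h0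
    apply hnot
    rw [sub_eq_zero.1 h0, Submodule.starProjection_apply]
    exact Subtype.property _
  have horth : ∀ d ∈ D, inner ℂ y d = (0 : ℂ) := fun d hd =>
    Submodule.inner_left_of_mem_orthogonal hd hyD
  have m0 : inner ℂ y x = (0 : ℂ) := horth _ (Submodule.subset_span (by simp))
  have m2 : inner ℂ y (F (F x)) = (0 : ℂ) := horth _ (Submodule.subset_span (by simp))
  have m4 : inner ℂ y (F (F (F (F x)))) = (0 : ℂ) := horth _ (Submodule.subset_span (by simp))
  have m1 : inner ℂ y (F x) ≠ (0 : ℂ) := by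
    have e1 : F x = y + D.starProjection (F x) := by rw [hy]; abel
    have e2 : inner ℂ y (D.starProjection (F x)) = (0 : ℂ) := horth _ (by
      rw [Submodule.starProjection_apply]; exact Subtype.property _)
    rw [e1, inner_add_right, e2, add_zero]
    exact fun h => hy0 (inner_self_eq_zero.1 h)
  have hFx : F x ≠ 0 := by
    intro h0
    rw [h0, inner_zero_right] at m1
    exact m1 rfl
  set Y : H →L[ℂ] H := ro (F x) y - ro x (star F y) with hY
  have h1 : jp F Y = (2 : ℂ)⁻¹ • (ro (F (F x)) y - ro x (star F (star F y))) := by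
    unfold jp
    congr 1
    rw [hY, mul_sub, sub_mul, mul_ro, mul_ro, ro_mul, ro_mul]
    abel
  have h2 : jp F Y * jp F Y = 0 := by
    rw [h1, smul_mul_smul_comm]
    have : (ro (F (F x)) y - ro x (star F (star F y))) * (ro (F (F x)) y - ro x (star F (star F y)))
        = 0 := by
      rw [mul_sub, sub_mul, sub_mul, ro_mul_ro, ro_mul_ro, ro_mul_ro, ro_mul_ro, m0, m2, fs1_inner,
        fs1_inner, fs1_inner, fs1_inner, m2, m4]
      simp
    rw [this, smul_zero]
  have h3 := hii _ h2
  have hYF : Y (F x) = inner ℂ y (F x) • F x := by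
    rw [hY]
    change ro (F x) y (F x) - ro x (star F y) (F x) = _
    rw [ro_apply, ro_apply, fs1_inner, m2, zero_smul, sub_zero]
  have h4 : ∀ n : ℕ, (Y ^ n) (F x) = (inner ℂ y (F x)) ^ n • F x := by
    intro n
    induction n with
    | zero => simp
    | succ n ih =>
      rw [pow_succ' Y]
      change Y ((Y ^ n) (F x)) = _
      rw [ih, map_smul, hYF, smul_smul, ← pow_succ]
  have h5 := h4 4
  rw [h3] at h5
  have h6 : (inner ℂ y (F x) : ℂ) ^ 4 • F x = 0 := h5.symm
  rcases smul_eq_zero.1 h6 with h7 | h7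
  · exact m1 (pow_eq_zero_iff (by norm_num) |>.1 h7)
  · exact hFx h7

end

theorem mt_FS1 : T_FS1 := fun _ _ _ _ F _ hii => ⟨fs1_ker F hii, fs1_span F hii⟩

end Pool.Agent.H88.MT
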