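import Pool.Agent.H48.MT.Targets3
import Pool.Agent.H48.MT.Unit

/-! Module J12 of mt_modules (helper88): operation 2, first stage. -/

open InnerProductSpace Filter Topology
open scoped ComplexConjugate

namespace Pool.Agent.H88.MT

open Pool.Agent.H48.MT

section

variable {H : Type} [NormedAddCommGroup H] [InnerProductSpace ℂ H] [CompleteSpace H]

lemma o2_com {L Φ : (H →L[ℂ] H) → H →L[ℂ] H} {m : Bool} (h : O2 L Φ m) (h1 : Φ 1 = 1)
    (A : H →L[ℂ] H) : Φ (L A) = L (Φ A) := by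
  have := h.eq2 A 1
  rw [h1, jp_one, jp_one] at this
  exact this.symm

lemma o2_sy {L Φ : (H →L[ℂ] H) → H →L[ℂ] H} {m : Bool} (h : O2 L Φ m) (h1 : Φ 1 = 1)
    (S : H →L[ℂ] H) (hS : IsSy S) : IsSy (Φ S) := by
  have hn : IsStarNormal S := hS.1.isStarNormal
  have hLS : L S = S := h.lm.nor S hn
  have hL1 : L 1 = 1 := h.lm.nor 1 (IsSelfAdjoint.one _).isStarNormal
  have hX : L (Φ S) = Φ S := by rw [← o2_com h h1, hLS]
  have hXX : Φ S * Φ S = 1 := by
    have e := h.eq2 S S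
    rw [jp_self, jp_self, hS.2, hL1, h1] at e
    have := h.lm.sca 1 (Φ S * Φ S) one_ne_zero (by rw [e, one_smul])
    rwa [one_smul] at this
  exact ⟨h.lm.inv _ hX hXX, hXX⟩

end

theorem mt_J12 : T_J12 := by
  intro H _ _ _ L Φ m h h1
  obtain ⟨Ψ, hΨ, hl, hr⟩ := h.inv
  have hΨ1 : Ψ 1 = 1 := by
    have := hl 1
    rwa [h1] at this
  refine ⟨h.lm, h.two, h.bij, h.zero, h1, o2_com h h1, fun S => ⟨o2_sy h h1 S, fun hS => ?_⟩,
    fun A S _ => h.eq2 A S⟩
  have := o2_sy hΨ hΨ1 _ hS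
  rwa [hl] at this

end Pool.Agent.H88.MT
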