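import Pool.Agent.H48.MT.Targets3
import Pool.Agent.H48.MT.Unit

/-! Module P2F of mt_modules (helper88): operation 2, not the mean transform: `Φ 1 = 1`. -/

open InnerProductSpace Filter Topology
open scoped ComplexConjugate

namespace Pool.Agent.H88.MT

open Pool.Agent.H48.MT

section

variable {H : Type} [NormedAddCommGroup H] [InnerProductSpace ℂ H] [CompleteSpace H]

lemma one_ne_zero_of_two (h : Two H) : (1 : H →L[ℂ] H) ≠ 0 := by
  obtain ⟨x, y, hx, -, -⟩ := h
  intro h0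
  have : (1 : H →L[ℂ] H) x = 0 := by rw [h0]; rfl
  have hx0 : x = 0 := this
  rw [hx0, norm_zero] at hx
  exact zero_ne_one hx

end

theorem mt_P2F (hFS1 : T_FS1) (hFS2 : T_FS2) : T_P2F := by
  intro H _ _ _ L Φ h
  have hL1 : L 1 = 1 := h.lm.nor 1 (IsSelfAdjoint.one _).isStarNormal
  set F := Φ 1 with hF
  have hA : ∀ B, L (jp F (Φ B)) = Φ (L B) := by
    intro B
    have := h.eq2 1 B
    rwa [one_jp] at this
  have hi : ∀ Z, jp F Z = 0 → Z = 0 := by
    intro Z hZ
    obtain ⟨B, hB⟩ := h.bij.2 (F + Z)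
    have e1 := hA B
    rw [hB, jp_add, hZ, add_zero] at e1
    have e2 := hA 1
    rw [hL1, ← hF] at e2
    have e3 : L B = 1 := by
      apply h.bij.1
      rw [← e1, e2, ← hF]
    have e4 : B = 1 := by
      have := h.lm.sca 1 B one_ne_zero (by rw [e3, one_smul])
      rwa [one_smul] at this
    rw [e4, ← hF] at hB
    exact left_eq_add.1 hB
  have hii : ∀ Y, jp F Y * jp F Y = 0 → Y ^ 4 = 0 := by
    intro Y hY
    obtain ⟨B, hB⟩ := h.bij.2 Y
    have e1 : L (jp F Y) = 0 := (h.lm.ze0 rfl _).2 hY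
    have e2 := hA B
    rw [hB, e1] at e2
    have e3 : L B = 0 := by
      apply h.bij.1
      rw [← e2, h.zero]
    have e4 : B * B = 0 := (h.lm.ze0 rfl B).1 e3
    have e5 := h.eq2 B B
    rw [hB, jp_self, jp_self, e4, h.lm.zero, h.zero] at e5
    have e6 : Y * Y * (Y * Y) = 0 := (h.lm.ze0 rfl _).1 e5
    calc Y ^ 4 = Y * Y * (Y * Y) := by noncomm_ring
      _ = 0 := e6
  have hi' : ∀ Z, jp (star F) Z = 0 → Z = 0 := by
    intro Z hZ
    have e1 := congrArg star hZ
    rw [star_jp, star_star, star_zero] at e1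
    have e2 := hi _ e1
    exact star_eq_zero.1 e2
  have hii' : ∀ Y, jp (star F) Y * jp (star F) Y = 0 → Y ^ 4 = 0 := by
    intro Y hY
    have e1 := congrArg star hY
    rw [star_mul, star_jp, star_star, star_zero] at e1
    have e2 := hii _ e1
    rw [← star_pow] at e2
    exact star_eq_zero.1 e2
  obtain ⟨k1, k2⟩ := hFS1 H F hi hii
  obtain ⟨-, k3⟩ := hFS1 H (star F) hi' hii'
  obtain ⟨s, hs⟩ := hFS2 H F hi hii k1 k2 k3
  have e2 := hA 1
  rw [hL1, ← hF] at e2
  have hn1 := one_ne_zero_of_two h.two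
  have hF0 : F ≠ 0 := by
    intro h0
    apply hn1
    apply h.bij.1
    rw [h.zero, ← hF, h0]
  have hs0 : s ≠ 0 := by
    intro h0
    rw [h0, zero_smul] at hs
    exact hF0 hs
  rw [jp_self, hs] at e2
  have e3 : (s • (1 : H →L[ℂ] H)) * (s • 1) = (s * s) • 1 := by
    rw [smul_mul_smul_comm, one_mul]
  rw [e3, h.lm.hom, hL1] at e2
  have e4 : (s * s - s) • (1 : H →L[ℂ] H) = 0 := by rw [sub_smul, e2, sub_self]
  have e5 : s * s - s = 0 := (smul_eq_zero.1 e4).resolve_right hn1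
  have e6 : s = 1 := by
    have : s * (s - 1) = 0 := by rw [mul_sub, mul_one]; exact e5
    exact sub_eq_zero.1 ((mul_eq_zero.1 this).resolve_left hs0)
  rw [hs, e6, one_smul]

end Pool.Agent.H88.MT
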