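import Pool.Agent.H48.MT.Targets
import Pool.Agent.H48.MT.Targets3
import Pool.Agent.H48.MT.Unit

/-! Module P2M of mt_modules (helper88): operation 2, mean transform: `Φ 1 = 1`. -/

open InnerProductSpace Filter Topology
open scoped ComplexConjugate

namespace Pool.Agent.H88.MT

open Pool.Agent.H48.MT

section

variable {H : Type} [NormedAddCommGroup H] [InnerProductSpace ℂ H] [CompleteSpace H]

lemma p2m_zero {L Φ : (H →L[ℂ] H) → H →L[ℂ] H} (h : O2 L Φ true) (A B : H →L[ℂ] H)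
    (hAB : jp A B = 0) : jp (Φ A) (Φ B) = 0 := by
  have e := h.eq2 A B
  rw [hAB, h.lm.zero, h.zero] at e
  exact (h.lm.ze1 rfl _).1 e

lemma p2m_scalar {L Φ : (H →L[ℂ] H) → H →L[ℂ] H} {m : Bool} (h : O2 L Φ m) (s : ℂ)
    (hs : Φ 1 = s • 1) : Φ 1 = 1 := by
  have hn1 : (1 : H →L[ℂ] H) ≠ 0 := by
    obtain ⟨x, y, hx, -, -⟩ := h.two
    intro h0
    have hx0 : x = 0 := by
      have : (1 : H →L[ℂ] H) x = 0 := by rw [h0]; rfl
      exact this
    rw [hx0, norm_zero] at hx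
    exact zero_ne_one hx
  have hL1 : L 1 = 1 := h.lm.nor 1 (IsSelfAdjoint.one _).isStarNormal
  have e2 := h.eq2 1 1
  rw [jp_self, jp_self, mul_one, hL1, hs] at e2
  have hF0 : Φ 1 ≠ 0 := by
    intro h0
    apply hn1
    apply h.bij.1
    rw [h.zero, h0]
  have hs0 : s ≠ 0 := by
    intro h0
    rw [h0, zero_smul] at hs
    exact hF0 hs
  have e3 : (s • (1 : H →L[ℂ] H)) * (s • 1) = (s * s) • 1 := by
    rw [smul_mul_smul_comm, one_mul]
  rw [e3, h.lm.hom, hL1] at e2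
  have e4 : (s * s - s) • (1 : H →L[ℂ] H) = 0 := by rw [sub_smul, e2, sub_self]
  have e5 : s * s - s = 0 := (smul_eq_zero.1 e4).resolve_right hn1
  have e6 : s = 1 := by
    have : s * (s - 1) = 0 := by rw [mul_sub, mul_one]; exact e5
    exact sub_eq_zero.1 ((mul_eq_zero.1 this).resolve_left hs0)
  rw [hs, e6, one_smul]

end

theorem mt_P2M (hZL : T_ZL) (hLLD : T_LLD) (hTR : T_TR) : T_P2M := by
  intro H _ _ _ L Φ h
  obtain ⟨⟨tr, htr⟩, fr1, fr2, fr3, fr4, -⟩ := hTR H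
  obtain ⟨Ψ, hΨ, hl, hr⟩ := h.inv
  have hzero : ∀ A B, jp (Φ A) (Φ B) = 0 → jp A B = 0 := by
    intro A B hAB
    have := p2m_zero hΨ (Φ A) (Φ B) hAB
    rwa [hl, hl] at this
  have key : ∀ N' : H →L[ℂ] H, N' ≠ 0 → N' * N' = 0 → ∃ c : ℂ, L (jp (Φ 1) N') = c • N' := by
    intro N' hN0 hN
    set N := Ψ N' with hNdef
    have hΦN : Φ N = N' := hr N'
    have hNN : N * N = 0 := by
      rw [← jp_self]
      apply hzero
      rw [hΦN, jp_self, hN]
    have hhalf : jp ((2 : ℂ)⁻¹ • N) ((2 : ℂ)⁻¹ • N) = 0 := by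
      rw [smul_jp, jp_smul, jp_self, hNN, smul_zero, smul_zero]
    have hK : Φ ((2 : ℂ)⁻¹ • N) * Φ ((2 : ℂ)⁻¹ • N) = 0 := by
      rw [← jp_self]
      exact p2m_zero h _ _ hhalf
    obtain ⟨c, hc⟩ := hZL H N' (Φ ((2 : ℂ)⁻¹ • N)) hN hN0 hK (by
      intro a b c d _ _ _ hjp
      set R' := ro a b + ro c d with hR'
      have e1 : jp (Ψ R') N = 0 := by
        apply hzero
        rw [hr, hΦN, hjp]
      have e2 : jp (Ψ R') ((2 : ℂ)⁻¹ • N) = 0 := by rw [jp_smul, e1, smul_zero]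
      have e3 := p2m_zero h _ _ e2
      rwa [hr] at e3)
    refine ⟨c, ?_⟩
    have e1 := h.eq2 1 N
    rw [one_jp, hΦN] at e1
    have e2 : L N = (2 : ℂ)⁻¹ • N := by
      have e3 := (h.lm.sq1 rfl N).2 hNN
      calc L N = (2 : ℂ)⁻¹ • ((2 : ℂ) • L N) := by
            rw [smul_smul, inv_mul_cancel₀ two_ne_zero, one_smul]
        _ = _ := by rw [e3]
    rw [e1, e2, hc]
  have horth1 : ∀ x y : H, ‖x‖ = 1 → ‖y‖ = 1 → inner ℂ y x = (0 : ℂ) → inner ℂ y (Φ 1 x) = 0 := by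
    intro x y hx hy hxy
    have hn0 : ro x y ≠ 0 := by
      intro h0
      rcases ro_eq_zero.1 h0 with h1 | h1
      · exact ne_zero_of_unit hx h1
      · exact ne_zero_of_unit hy h1
    obtain ⟨c, hc⟩ := key (ro x y) hn0 (by rw [ro_mul_ro, hxy, zero_smul])
    have f1 : FR (Φ 1 * ro x y) := (fr4 (ro x y) (Φ 1) (fr1 x y)).2
    have f2 : FR (ro x y * Φ 1) := (fr4 (ro x y) (Φ 1) (fr1 x y)).1
    have f3 : FR (jp (Φ 1) (ro x y)) := fr3 _ _ (fr2 _ _ f1 f2)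
    have t1 : tr (jp (Φ 1) (ro x y)) = inner ℂ y (Φ 1 x) := by
      unfold jp
      rw [htr.smul _ _ (fr2 _ _ f1 f2), htr.add _ _ f1 f2, htr.cyc (ro x y) (Φ 1) (fr1 x y), mul_ro,
        htr.rk]
      ring
    have t2 := (h.lm.trc tr htr _ f3).2
    rw [hc, htr.smul _ _ (fr1 x y), htr.rk, hxy, mul_zero, t1] at t2
    exact t2.symm
  have horth : ∀ x y : H, inner ℂ x y = (0 : ℂ) → inner ℂ y (Φ 1 x) = 0 := by
    intro x y hxy
    by_cases hx : x = 0
    · rw [hx, map_zero, inner_zero_right]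
    by_cases hy : y = 0
    · rw [hy, inner_zero_left]
    obtain ⟨x', hx', ex⟩ := exists_unit hx
    obtain ⟨y', hy', ey⟩ := exists_unit hy
    have hnx : (‖x‖ : ℂ) ≠ 0 := by exact_mod_cast norm_ne_zero_iff.2 hx
    have hny : (‖y‖ : ℂ) ≠ 0 := by exact_mod_cast norm_ne_zero_iff.2 hy
    have h1 : inner ℂ y' x' = (0 : ℂ) := by
      have h2 : inner ℂ y x = (0 : ℂ) := by rw [← inner_conj_symm, hxy, map_zero]
      rw [ex, ey, inner_smul_left, inner_smul_right, Complex.conj_ofReal] at h2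
      rcases mul_eq_zero.1 h2 with h3 | h3
      · exact absurd h3 hny
      · exact (mul_eq_zero.1 h3).resolve_left hnx
    rw [ex, ey, map_smul, inner_smul_left, inner_smul_right, horth1 x' y' hx' hy' h1, mul_zero,
      mul_zero]
  obtain ⟨s, hs⟩ := (hLLD H).2 (Φ 1) horth
  exact p2m_scalar h s hs

end Pool.Agent.H88.MT
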