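import Pool.Agent.H48.MT.Targets
import Pool.Agent.H48.MT.Targets3
import Pool.Agent.H48.MT.Unit

/-! Modules E2 and E4 of mt_modules (helper88). -/

open InnerProductSpace Filter Topology
open scoped ComplexConjugate

namespace Pool.Agent.H88.MT

open Pool.Agent.H48.MT

section

variable {H : Type} [NormedAddCommGroup H] [InnerProductSpace ℂ H] [CompleteSpace H]

/-- the trace of the Jordan product with a rank one operator -/
lemma e_tr (tr : (H →L[ℂ] H) → ℂ) (htr : IsTr tr) (fr1 : ∀ x y : H, FR (ro x y))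
    (fr2 : ∀ X Y : H →L[ℂ] H, FR X → FR Y → FR (X + Y))
    (fr3 : ∀ (c : ℂ) (X : H →L[ℂ] H), FR X → FR (c • X))
    (fr4 : ∀ X Y : H →L[ℂ] H, FR X → FR (X * Y) ∧ FR (Y * X)) (C : H →L[ℂ] H) (x y : H) :
    FR (jp C (ro x y)) ∧ tr (jp C (ro x y)) = inner ℂ y (C x) := by
  have f1 : FR (C * ro x y) := (fr4 (ro x y) C (fr1 x y)).2
  have f2 : FR (ro x y * C) := (fr4 (ro x y) C (fr1 x y)).1
  refine ⟨fr3 _ _ (fr2 _ _ f1 f2), ?_⟩
  unfold jp
  rw [htr.smul _ _ (fr2 _ _ f1 f2), htr.add _ _ f1 f2, htr.cyc (ro x y) C (fr1 x y), mul_ro,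
    htr.rk]
  ring

lemma inner_symm_ne {x y : H} (h : inner ℂ x y ≠ (0 : ℂ)) : inner ℂ y x ≠ (0 : ℂ) := by
  intro h0
  apply h
  rw [← inner_conj_symm, h0, map_zero]

/-- comparison of traces -/
lemma e_cmp {L Φ : (H →L[ℂ] H) → H →L[ℂ] H} {m : Bool} (h : JF L Φ m)
    (tr : (H →L[ℂ] H) → ℂ) (htr : IsTr tr) (fr1 : ∀ x y : H, FR (ro x y))
    (fr2 : ∀ X Y : H →L[ℂ] H, FR X → FR Y → FR (X + Y))
    (fr3 : ∀ (c : ℂ) (X : H →L[ℂ] H), FR X → FR (c • X))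
    (fr4 : ∀ X Y : H →L[ℂ] H, FR X → FR (X * Y) ∧ FR (Y * X)) (B : H →L[ℂ] H) (u v : H)
    (huv : inner ℂ v u ≠ (0 : ℂ))
    (hfix : Φ (L (jp B (ro u v))) = L (jp B (ro u v))) :
    inner ℂ v (Φ B u) = (inner ℂ v (B u) : ℂ) := by
  have h1 := h.mul B (ro u v) (h.r1 u v huv) (by
    rw [star_ro]
    exact h.r1 v u (inner_symm_ne huv))
  rw [hfix] at h1
  obtain ⟨a1, a2⟩ := e_tr tr htr fr1 fr2 fr3 fr4 (Φ B) u v
  obtain ⟨b1, b2⟩ := e_tr tr htr fr1 fr2 fr3 fr4 B u v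
  have h2 := (h.lm.trc tr htr _ a1).2
  have h3 := (h.lm.trc tr htr _ b1).2
  rw [h1, h3, a2, b2] at h2
  exact h2.symm

end

theorem mt_E2 (hTR : T_TR) : T_E2 := by
  intro H _ _ _ L Φ m h B u b hu
  obtain ⟨⟨tr, htr⟩, fr1, fr2, fr3, fr4, -⟩ := hTR H
  by_cases hu0 : u = 0
  · rw [hu0, map_zero, smul_zero]
  have key : ∀ v, inner ℂ v u ≠ (0 : ℂ) → inner ℂ v (Φ B u - B u) = (0 : ℂ) := by
    intro v hv
    rw [inner_sub_right, sub_eq_zero]
    apply e_cmp h tr htr fr1 fr2 fr3 fr4 B u v hv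
    have h1 : jp B (ro u v) = ro u ((2 : ℂ)⁻¹ • (conj b • v + star B v)) := by
      have h2 : (starRingEnd ℂ) (2 : ℂ)⁻¹ = (2 : ℂ)⁻¹ := by
        rw [map_inv₀, Complex.conj_ofNat]
      rw [jp_ro, hu, ro_smul_left, ro_smul_right, ro_add_right, ro_smul_right, Complex.conj_conj, h2]
    rw [h1]
    exact h.r2 _ _
  have huu : inner ℂ u u ≠ (0 : ℂ) := fun h0 => hu0 (inner_self_eq_zero.1 h0)
  have hz : Φ B u - B u = 0 := by
    apply ext_inner_left ℂ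
    intro v
    rw [inner_zero_right]
    by_cases hv : inner ℂ v u = (0 : ℂ)
    · have h1 := key (v + u) (by rw [inner_add_left, hv, zero_add]; exact huu)
      have h2 := key u huu
      rw [inner_add_left, h2, add_zero] at h1
      exact h1
    · exact key v hv
  rw [sub_eq_zero.1 hz, hu]

theorem mt_E4 (hTR : T_TR) (hGEN : T_GEN) : T_E4 := by
  intro H _ _ _ L Φ m h hE2 hE3 B
  by_cases hBB : B * B = 0
  swap
  · exact hE3 B hBB
  obtain ⟨⟨tr, htr⟩, fr1, fr2, fr3, fr4, -⟩ := hTR H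
  ext u
  by_cases hBu : B u = 0
  · have := hE2 B u 0 (by rw [hBu, zero_smul])
    rw [this, hBu, zero_smul]
  have hu0 : u ≠ 0 := by
    intro h0
    rw [h0, map_zero] at hBu
    exact hBu rfl
  by_contra hne
  have hz : Φ B u - B u ≠ 0 := fun h0 => hne (sub_eq_zero.1 h0)
  obtain ⟨⟨v, hv1, hv2, hv3⟩, -⟩ := hGEN H u 0 (B u) (Φ B u - B u) hu0 hBu hz
  apply hv3
  rw [inner_sub_right, sub_eq_zero]
  apply e_cmp h tr htr fr1 fr2 fr3 fr4 B u v hv1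
  obtain ⟨b1, b2⟩ := e_tr tr htr fr1 fr2 fr3 fr4 B u v
  have hT : jp B (ro u v) * jp B (ro u v) ≠ 0 := by
    intro h0
    have := htr.nil _ 2 b1 (by rw [pow_two]; exact h0)
    rw [b2] at this
    exact hv2 this
  rw [h.com, hE3 _ hT]

end Pool.Agent.H88.MT
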