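import Pool.Agent.H48.MT.Targets
import Pool.Agent.H48.MT.Targets3
import Pool.Agent.H48.MT.Unit

/-! Modules FI0 and FI1 of mt_modules (helper88). -/

open InnerProductSpace Filter Topology
open scoped ComplexConjugate

namespace Pool.Agent.H88.MT

open Pool.Agent.H48.MT

section

variable {H : Type} [NormedAddCommGroup H] [InnerProductSpace ℂ H] [CompleteSpace H]

/-- an orthonormal pair containing two given unit vectors in its span -/
lemma fi_plane (h2 : Two H) (x y : H) (hy : ‖y‖ = 1) :
    ∃ z : H, ‖z‖ = 1 ∧ inner ℂ y z = (0 : ℂ) ∧ ∃ a b : ℂ, x = a • y + b • z := by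
  set w := x - inner ℂ y x • y with hw
  have hyw : inner ℂ y w = (0 : ℂ) := by
    rw [hw, inner_sub_right, inner_smul_right, inner_self_one hy, mul_one, sub_self]
  by_cases hw0 : w = 0
  · obtain ⟨z, hz, hyz⟩ := exists_orth h2 y hy
    refine ⟨z, hz, hyz, inner ℂ y x, 0, ?_⟩
    rw [zero_smul, add_zero]
    exact sub_eq_zero.1 hw0
  · obtain ⟨z, hz, ez⟩ := exists_unit hw0
    have hnw : (‖w‖ : ℂ) ≠ 0 := by exact_mod_cast norm_ne_zero_iff.2 hw0
    refine ⟨z, hz, ?_, inner ℂ y x, (‖w‖ : ℂ), ?_⟩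
    · rw [ez, inner_smul_right] at hyw
      exact (mul_eq_zero.1 hyw).resolve_left hnw
    · rw [← ez, hw]
      abel

lemma fi_corner (y z a b : H) (hy : ‖y‖ = 1) (hz : ‖z‖ = 1) (hyz : inner ℂ y z = (0 : ℂ))
    (ha : ∃ p q : ℂ, a = p • y + q • z) (hb : ∃ p q : ℂ, b = p • y + q • z) :
    (ro y y + ro z z) * ro a b * (ro y y + ro z z) = ro a b := by
  have hzy : inner ℂ z y = (0 : ℂ) := by rw [← inner_conj_symm, hyz, map_zero]
  have hE : ∀ c : H, (∃ p q : ℂ, c = p • y + q • z) → (ro y y + ro z z) c = c := by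
    rintro c ⟨p, q, rfl⟩
    change ro y y (p • y + q • z) + ro z z (p • y + q • z) = _
    rw [ro_apply, ro_apply, inner_add_right, inner_add_right, inner_smul_right, inner_smul_right,
      inner_smul_right, inner_smul_right, hyz, hzy, inner_self_one hy, inner_self_one hz]
    simp
  have hs : star (ro y y + ro z z) = ro y y + ro z z := by
    rw [star_add, star_ro, star_ro]
  rw [mul_ro, ro_mul, hs, hE a ha, hE b hb]

end

theorem mt_FI1 (hNST : T_NST) : T_FI1 := by
  intro H _ _ _ L Φ f h hC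
  rcases h.fid with hf | hf
  · exact hf
  exfalso
  obtain ⟨x, y, hx, hy, hne⟩ := hNST H L true h.lm h.two
  obtain ⟨z, hz, hyz, hxyz⟩ := fi_plane h.two x y hy
  have hyy : ∃ p q : ℂ, y = p • y + q • z := ⟨1, 0, by simp⟩
  have h1 : Φ (ro x y) = star (ro x y) :=
    (hC y z (ro x y) hy hz hyz (fi_corner y z x y hy hz hyz hxyz hyy)).2 hf
  have hLx : L (ro x y) = ro ((2 : ℂ)⁻¹ • (x + inner ℂ y x • y)) y := by
    rw [h.lm.rk1u x y hy, ro_smul_left, ro_add_left, ro_smul_left]
  have hpl : ∃ p q : ℂ, (2 : ℂ)⁻¹ • (x + inner ℂ y x • y) = p • y + q • z := by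
    obtain ⟨a, b, hab⟩ := hxyz
    refine ⟨(2 : ℂ)⁻¹ * (a + inner ℂ y x), (2 : ℂ)⁻¹ * b, ?_⟩
    nth_rewrite 1 [hab]
    rw [mul_smul, mul_smul, add_smul, ← smul_add]
    congr 1
    abel
  have h2 : Φ (L (ro x y)) = star (L (ro x y)) := by
    rw [hLx]
    exact (hC y z _ hy hz hyz (fi_corner y z _ y hy hz hyz hpl hyy)).2 hf
  apply hne
  rw [← h2, h.com, h1]

theorem mt_FI0 : T_FI0 := by
  intro H _ _ _ L Φ f h hN
  rcases h.fid with hf | hf
  · exact hf
  exfalso
  obtain ⟨e1, e2, n1, n2, o12⟩ := h.two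
  have o21 : inner ℂ e2 e1 = (0 : ℂ) := by rw [← inner_conj_symm, o12, map_zero]
  have i1 := inner_self_one n1
  have i2 := inner_self_one n2
  set s : ℂ := (((Real.sqrt 2)⁻¹ : ℝ) : ℂ) with hs
  have hss : s * s = 2⁻¹ := by
    rw [hs, ← Complex.ofReal_mul, ← mul_inv, Real.mul_self_sqrt (by norm_num)]
    norm_num
  have hcs : (starRingEnd ℂ) s = s := by rw [hs, Complex.conj_ofReal]
  set u : H := s • (e1 - Complex.I • e2) with hu
  set v : H := s • (e1 + Complex.I • e2) with hv
  have iuu : inner ℂ u u = (1 : ℂ) := by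
    rw [hu, inner_smul_left, inner_smul_right, inner_sub_left, inner_sub_right, inner_sub_right,
      inner_smul_left, inner_smul_right, inner_smul_right, inner_smul_left, o12, o21, i1, i2, hcs,
      Complex.conj_I]
    have : s * (s * (1 - Complex.I * 0 - (-Complex.I * 0 - Complex.I * (-Complex.I * 1)))) =
      (s * s) * (1 - Complex.I * Complex.I) := by ring
    rw [this, hss, Complex.I_mul_I]
    norm_num
  have ivv : inner ℂ v v = (1 : ℂ) := by
    rw [hv, inner_smul_left, inner_smul_right, inner_add_left, inner_add_right, inner_add_right,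
      inner_smul_left, inner_smul_right, inner_smul_right, inner_smul_left, o12, o21, i1, i2, hcs,
      Complex.conj_I]
    have : s * (s * (1 + Complex.I * 0 + (-Complex.I * 0 + Complex.I * (-Complex.I * 1)))) =
      (s * s) * (1 - Complex.I * Complex.I) := by ring
    rw [this, hss, Complex.I_mul_I]
    norm_num
  have iuv : inner ℂ u v = (0 : ℂ) := by
    rw [hu, hv, inner_smul_left, inner_smul_right, inner_sub_left, inner_add_right, inner_add_right,
      inner_smul_left, inner_smul_right, inner_smul_right, inner_smul_left, o12, o21, i1, i2, hcs,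
      Complex.conj_I]
    have : s * (s * (1 + Complex.I * 0 - (-Complex.I * 0 + Complex.I * (-Complex.I * 1)))) =
      (s * s) * (1 + Complex.I * Complex.I) := by ring
    rw [this, Complex.I_mul_I]
    ring
  have nrm : ∀ w : H, inner ℂ w w = (1 : ℂ) → ‖w‖ = 1 := by
    intro w hw
    have h2 : ‖w‖ ^ 2 = 1 := by
      rw [← inner_self_eq_norm_sq (𝕜 := ℂ), hw]
      simp
    nlinarith [norm_nonneg w]
  have nu := nrm u iuu
  have nv := nrm v ivv
  have ivu : inner ℂ v u = (0 : ℂ) := by rw [← inner_conj_symm, iuv, map_zero]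
  have eu : ro u u = (2 : ℂ)⁻¹ • (ro e1 e1 + Complex.I • ro e1 e2 - Complex.I • ro e2 e1 +
      ro e2 e2) := by
    rw [hu, ro_smul_left, ro_smul_right, smul_smul, hcs, hss, ro_sub_left, ro_sub_right,
      ro_sub_right, ro_smul_left, ro_smul_right, ro_smul_right, ro_smul_left, Complex.conj_I,
      smul_smul]
    have : -Complex.I * Complex.I = 1 := by rw [neg_mul, Complex.I_mul_I, neg_neg]
    rw [this]
    module
  have ev : ro v v = (2 : ℂ)⁻¹ • (ro e1 e1 - Complex.I • ro e1 e2 + Complex.I • ro e2 e1 +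
      ro e2 e2) := by
    rw [hv, ro_smul_left, ro_smul_right, smul_smul, hcs, hss, ro_add_left, ro_add_right,
      ro_add_right, ro_smul_left, ro_smul_right, ro_smul_right, ro_smul_left, Complex.conj_I,
      smul_smul]
    have : -Complex.I * Complex.I = 1 := by rw [neg_mul, Complex.I_mul_I, neg_neg]
    rw [this]
    module
  set R : H →L[ℂ] H := ro u u - ro v v with hR
  have eR : R = Complex.I • ro e1 e2 - Complex.I • ro e2 e1 := by
    rw [hR, eu, ev]
    module
  have hRs : star R = R := by rw [hR, star_sub, star_ro, star_ro]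
  have f1 : f 1 = 1 := by rw [hf, map_one]
  have fm1 : f (-1) = -1 := by rw [hf, map_neg, map_one]
  have hΦR : Φ R = R := by
    have h1 := h.val u v nu nv iuv 1 (-1)
    rw [f1, fm1, one_smul, neg_one_smul, ← sub_eq_add_neg] at h1
    exact h1
  set B : H →L[ℂ] H := ro e1 (e1 + e2) with hB
  have hΦB : Φ B = B := by
    have i3 : inner ℂ (e1 + e2) e1 = (1 : ℂ) := by rw [inner_add_left, i1, o21, add_zero]
    obtain ⟨c, hc, hc2⟩ := hN e1 (e1 + e2) (by rw [i3]; exact one_ne_zero)
    rw [i3, mul_one, f1] at hc2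
    rw [hc2, one_smul] at hc
    exact hc
  have hmul := h.mul B R hΦR (by rw [hRs, hΦR])
  rw [hΦB] at hmul
  set a : ℂ := (1 - Complex.I) / 2 with ha
  set b : ℂ := (-1 - Complex.I) / 2 with hb
  have hBe : B = ro e1 e1 + ro e1 e2 := by rw [hB, ro_add_right]
  have hjp : jp B R = a • ro u u + b • ro v v := by
    unfold jp
    rw [eu, ev, hBe, eR]
    simp only [mul_add, add_mul, mul_sub, sub_mul, smul_mul_assoc, mul_smul_comm, ro_mul_ro, i1, i2,
      o12, o21, zero_smul, one_smul, smul_zero]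
    rw [ha, hb]
    module
  have hnorm : IsStarNormal (a • ro u u + b • ro v v) := by
    refine ⟨?_⟩
    change star (a • ro u u + b • ro v v) * (a • ro u u + b • ro v v) =
      (a • ro u u + b • ro v v) * star (a • ro u u + b • ro v v)
    rw [star_add, star_smul, star_smul, star_ro, star_ro]
    simp only [mul_add, add_mul, smul_mul_assoc, mul_smul_comm, ro_mul_ro, iuu, ivv, iuv, ivu,
      zero_smul, one_smul, smul_zero, add_zero, zero_add, smul_smul, mul_comm]
  rw [hjp, h.lm.nor _ hnorm, h.val u v nu nv iuv a b] at hmul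
  have h3 := congrArg (fun A : H →L[ℂ] H => inner ℂ u (A u)) hmul
  have h4 : ∀ c d : ℂ, inner ℂ u ((c • ro u u + d • ro v v) u) = c := by
    intro c d
    change inner ℂ u (c • ro u u u + d • ro v v u) = c
    rw [ro_apply, ro_apply, iuu, ivu, one_smul, zero_smul, smul_zero, add_zero, inner_smul_right,
      iuu, mul_one]
  simp only [h4] at h3
  rw [hf] at h3
  have h5 := congrArg Complex.im h3
  rw [Complex.conj_im, ha] at h5
  norm_num at h5

end Pool.Agent.H88.MT
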