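import Pool.Agent.H48.MT.Targets
import Pool.Agent.H48.MT.Targets3
import Pool.Agent.H48.MT.Unit

/-! Modules KR0 and KR1 of mt_modules (helper88): kernels. -/

open InnerProductSpace Filter Topology
open scoped ComplexConjugate

namespace Pool.Agent.H88.MT

open Pool.Agent.H48.MT

section

variable {H : Type} [NormedAddCommGroup H] [InnerProductSpace ℂ H] [CompleteSpace H]

lemma jn_f {L Φ : (H →L[ℂ] H) → H →L[ℂ] H} {m : Bool} {f : ℂ → ℂ} (h : JN L Φ m f) :
    f 1 = 1 ∧ f 0 = 0 := by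
  rcases h.fid with hf | hf <;> simp [hf]

lemma jn_py {L Φ : (H →L[ℂ] H) → H →L[ℂ] H} {m : Bool} {f : ℂ → ℂ} (h : JN L Φ m f) (y : H)
    (hy : ‖y‖ = 1) : Φ (ro y y) = ro y y := by
  obtain ⟨z, hz, hyz⟩ := exists_orth h.two y hy
  have h1 := h.val y z hy hz hyz 1 0
  rw [(jn_f h).1, (jn_f h).2, one_smul, zero_smul, add_zero] at h1
  exact h1

lemma jn_mul {L Φ : (H →L[ℂ] H) → H →L[ℂ] H} {m : Bool} {f : ℂ → ℂ} (h : JN L Φ m f)
    (B : H →L[ℂ] H) (y : H) (hy : ‖y‖ = 1) :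
    L (jp (Φ B) (ro y y)) = Φ (L (jp B (ro y y))) :=
  h.mul B (ro y y) (jn_py h y hy) (by rw [star_ro, jn_py h y hy])

lemma jn_zero_iff {L Φ : (H →L[ℂ] H) → H →L[ℂ] H} {m : Bool} {f : ℂ → ℂ} (h : JN L Φ m f)
    (B : H →L[ℂ] H) (y : H) (hy : ‖y‖ = 1) :
    L (jp B (ro y y)) = 0 ↔ L (jp (Φ B) (ro y y)) = 0 := by
  rw [jn_mul h B y hy]
  constructor
  · intro h1
    rw [h1, h.zero]
  · intro h1
    apply h.bij.1
    rw [h1, h.zero]

lemma kr_inner (C : H →L[ℂ] H) (x y : H) : inner ℂ (star C y) x = inner ℂ y (C x) := by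
  rw [ContinuousLinearMap.star_eq_adjoint, ContinuousLinearMap.adjoint_inner_left]

/-- the kernel claim for the mean transform -/
lemma kr1_claim (C : H →L[ℂ] H) (y : H) (hy : ‖y‖ = 1) :
    jp C (ro y y) = 0 ↔ C y = 0 ∧ star C y = 0 := by
  rw [jp_ro]
  constructor
  · intro h
    have h1 : ro (C y) y + ro y (star C y) = 0 := by
      rcases smul_eq_zero.1 h with h2 | h2
      · norm_num at h2
      · exact h2
    have h2 : C y + inner ℂ y (C y) • y = 0 := by
      have h3 : (ro (C y) y + ro y (star C y)) y = 0 := by rw [h1]; rfl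
      change ro (C y) y y + ro y (star C y) y = 0 at h3
      rw [ro_apply, ro_apply, inner_self_one hy, one_smul, kr_inner] at h3
      exact h3
    have h3 : inner ℂ y (C y) = (0 : ℂ) := by
      have h4 : inner ℂ y (C y + inner ℂ y (C y) • y) = (0 : ℂ) := by rw [h2, inner_zero_right]
      rw [inner_add_right, inner_smul_right, inner_self_one hy, mul_one, ← two_mul] at h4
      exact (mul_eq_zero.1 h4).resolve_left two_ne_zero
    rw [h3, zero_smul, add_zero] at h2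
    refine ⟨h2, ?_⟩
    rw [h2, ro_zero_left, zero_add] at h1
    exact (ro_eq_zero.1 h1).resolve_left (ne_zero_of_unit hy)
  · rintro ⟨h1, h2⟩
    rw [h1, h2, ro_zero_left, ro_zero_right, add_zero, smul_zero]

lemma kr0_claim (hTR : T_TR) (C : H →L[ℂ] H) (y : H) (hy : ‖y‖ = 1) :
    jp C (ro y y) * jp C (ro y y) = 0 ↔ C y = 0 ∨ star C y = 0 := by
  obtain ⟨⟨tr, htr⟩, fr1, fr2, fr3, fr4, -⟩ := hTR H
  rw [jp_ro]
  set a := C y with ha
  set b := star C y with hb
  have hab : inner ℂ b y = inner ℂ y a := kr_inner C y y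
  have hexp : (ro a y + ro y b) * (ro a y + ro y b) =
      inner ℂ y a • ro a y + ro a b + inner ℂ b a • ro y y + inner ℂ y a • ro y b := by
    rw [mul_add, add_mul, add_mul, ro_mul_ro, ro_mul_ro, ro_mul_ro, ro_mul_ro, inner_self_one hy,
      one_smul, hab]
    abel
  constructor
  · intro h
    rw [smul_mul_smul_comm] at h
    have h1 : (ro a y + ro y b) * (ro a y + ro y b) = 0 := by
      rcases smul_eq_zero.1 h with h2 | h2
      · norm_num at h2
      · exact h2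
    have hfr : FR (ro a y + ro y b) := fr2 _ _ (fr1 _ _) (fr1 _ _)
    have h2 : tr (ro a y + ro y b) = 0 := htr.nil _ 2 hfr (by rw [pow_two]; exact h1)
    rw [htr.add _ _ (fr1 _ _) (fr1 _ _), htr.rk, htr.rk, hab, ← two_mul] at h2
    have h3 : inner ℂ y a = (0 : ℂ) := (mul_eq_zero.1 h2).resolve_left two_ne_zero
    rw [hexp, h3, zero_smul, zero_smul, zero_add, add_zero] at h1
    have h4 : inner ℂ b a • y = 0 := by
      have h5 : (ro a b + inner ℂ b a • ro y y) y = 0 := by rw [h1]; rfl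
      change ro a b y + inner ℂ b a • ro y y y = 0 at h5
      rw [ro_apply, ro_apply, inner_self_one hy, one_smul, hab, h3, zero_smul, zero_add] at h5
      exact h5
    have h5 : inner ℂ b a = (0 : ℂ) := (smul_eq_zero.1 h4).resolve_right (ne_zero_of_unit hy)
    rw [h5, zero_smul, add_zero] at h1
    exact ro_eq_zero.1 h1
  · intro h
    rw [smul_mul_smul_comm, hexp]
    rcases h with h | h
    · rw [h]
      simp
    · have h3 : inner ℂ y a = (0 : ℂ) := by rw [← hab, h, inner_zero_left]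
      rw [h3, h]
      simp

lemma kr_scale (C : H →L[ℂ] H) (r : ℂ) (hr : r ≠ 0) (y : H) : C (r • y) = 0 ↔ C y = 0 := by
  rw [map_smul, smul_eq_zero]
  exact ⟨fun h => h.resolve_left hr, fun h => Or.inr h⟩

end

theorem mt_KR0 (hTR : T_TR) : T_KR0 := by
  intro H _ _ _ L Φ f h B y
  by_cases hy0 : y = 0
  · rw [hy0]; simp
  obtain ⟨y', hy', ey⟩ := exists_unit hy0
  have hny : (‖y‖ : ℂ) ≠ 0 := by exact_mod_cast norm_ne_zero_iff.2 hy0
  rw [ey, kr_scale _ _ hny, kr_scale _ _ hny, kr_scale _ _ hny, kr_scale _ _ hny,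
    ← kr0_claim hTR B y' hy', ← kr0_claim hTR (Φ B) y' hy', ← h.lm.ze0 rfl, ← h.lm.ze0 rfl]
  exact jn_zero_iff h B y' hy'

theorem mt_KR1 : T_KR1 := by
  intro H _ _ _ L Φ f h B y
  by_cases hy0 : y = 0
  · rw [hy0]; simp
  obtain ⟨y', hy', ey⟩ := exists_unit hy0
  have hny : (‖y‖ : ℂ) ≠ 0 := by exact_mod_cast norm_ne_zero_iff.2 hy0
  rw [ey, kr_scale _ _ hny, kr_scale _ _ hny, kr_scale _ _ hny, kr_scale _ _ hny,
    ← kr1_claim B y' hy', ← kr1_claim (Φ B) y' hy', ← h.lm.ze1 rfl (jp B (ro y' y')),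
    ← h.lm.ze1 rfl (jp (Φ B) (ro y' y'))]
  exact jn_zero_iff h B y' hy'

end Pool.Agent.H88.MT
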