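import Pool.Agent.H48.MT.Targets
import Pool.Agent.H48.MT.Targets3
import Pool.Agent.H48.MT.Unit

/-! Module P3O of mt_modules (helper88): operation 3, `Φ 1 = 1`. -/

open InnerProductSpace Filter Topology
open scoped ComplexConjugate

namespace Pool.Agent.H88.MT

open Pool.Agent.H48.MT

section

variable {H : Type} [NormedAddCommGroup H] [InnerProductSpace ℂ H] [CompleteSpace H]

lemma jp_star_nonneg (X : H →L[ℂ] H) : 0 ≤ jp X (star X) := by
  unfold jp
  have h1 : (2 : ℂ)⁻¹ • (X * star X + star X * X) = (2 : ℝ)⁻¹ • (X * star X + star X * X) := by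
    rw [← Complex.coe_smul]
    norm_num
  rw [h1]
  exact smul_nonneg (by norm_num) (add_nonneg (mul_star_self_nonneg X) (star_mul_self_nonneg X))

lemma p3o_pos {L Φ : (H →L[ℂ] H) → H →L[ℂ] H} {m : Bool} (h : O3 L Φ m) (P : H →L[ℂ] H)
    (hP : 0 ≤ P) : 0 ≤ Φ P := by
  set A := CFC.sqrt P with hA
  have hA0 : 0 ≤ A := CFC.sqrt_nonneg P
  have hAs : star A = A := (IsSelfAdjoint.of_nonneg hA0).star_eq
  have hAA : A * A = P := CFC.sqrt_mul_sqrt_self P hP
  have e := h.eq3 A A
  rw [hAs, jp_self, hAA, h.lm.sel (IsSelfAdjoint.of_nonneg hP)] at e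
  rw [← e, h.lm.sel (IsSelfAdjoint.of_nonneg (jp_star_nonneg _))]
  exact jp_star_nonneg _

lemma ro_self_nonneg (z : H) : 0 ≤ ro z z := by
  by_cases hz : z = 0
  · rw [hz, ro_zero_left]
  · obtain ⟨y, hy, ey⟩ := exists_unit hz
    have h1 : ro z z = star (ro y z) * ro y z := by
      rw [star_ro, ro_mul_ro, inner_self_one hy, one_smul]
    rw [h1]
    exact star_mul_self_nonneg _

end

theorem mt_P3O : T_P3O := by
  intro H _ _ _ L Φ m h
  obtain ⟨Ψ, hΨ, hl, hr⟩ := h.inv
  set F := Φ 1 with hF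
  have hF0 : 0 ≤ F := p3o_pos h 1 (by
    have := star_mul_self_nonneg (1 : H →L[ℂ] H)
    rwa [star_one, mul_one] at this)
  have hFs : star F = F := (IsSelfAdjoint.of_nonneg hF0).star_eq
  have hFF : F * F = F := by
    have e := h.eq3 1 1
    rw [star_one, jp_self, mul_one, h.lm.one, ← hF, hFs, jp_self] at e
    have hsa : IsSelfAdjoint (F * F) := by
      change star (F * F) = F * F
      rw [star_mul, hFs]
    rw [h.lm.sel hsa] at e
    exact e
  -- injectivity
  have hinj : ∀ z, F z = 0 → z = 0 := by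
    intro z hz
    by_contra hne
    have hq0 := ro_self_nonneg z
    set B := Ψ (ro z z) with hB
    have hB0 : 0 ≤ B := p3o_pos hΨ _ hq0
    have hBs : star B = B := (IsSelfAdjoint.of_nonneg hB0).star_eq
    have e := h.eq3 1 B
    have hΦB : Φ B = ro z z := hr _
    rw [hBs, one_jp, h.lm.sel (IsSelfAdjoint.of_nonneg hB0), hΦB, ← hF, star_ro, jp_ro, hFs, hz,
      ro_zero_left, ro_zero_right, add_zero, smul_zero, h.lm.zero] at e
    rcases ro_eq_zero.1 e.symm with h1 | h1
    · exact hne h1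
    · exact hne h1
  ext x
  have h1 : F (F x - x) = 0 := by
    rw [map_sub, sub_eq_zero]
    exact congrArg (fun A : H →L[ℂ] H => A x) hFF
  exact sub_eq_zero.1 (hinj _ h1)

end Pool.Agent.H88.MT
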