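import Pool.Agent.H48.MT.Targets

/-! Module POL of mt_modules (helper88): existence and uniqueness of the polar decomposition. -/

open InnerProductSpace Filter Topology
open scoped ComplexConjugate

namespace Pool.Agent.H88.MT

open Pool.Agent.H48.MT

section

variable {H : Type} [NormedAddCommGroup H] [InnerProductSpace ℂ H] [CompleteSpace H]

lemma abs_sa (T : H →L[ℂ] H) : IsSelfAdjoint (CFC.abs T) := IsSelfAdjoint.of_nonneg (CFC.abs_nonneg T)

lemma inner_abs_abs (T : H →L[ℂ] H) (x y : H) :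
    inner ℂ (CFC.abs T x) (CFC.abs T y) = inner ℂ (T x) (T y) := by
  have h1 : CFC.abs T * CFC.abs T = star T * T := CFC.abs_mul_abs T
  have h2 : CFC.abs T (CFC.abs T y) = star T (T y) := by
    have := congrArg (fun A : H →L[ℂ] H => A y) h1
    simpa using this
  have h3 : inner ℂ (CFC.abs T x) (CFC.abs T y) = inner ℂ x (CFC.abs T (CFC.abs T y)) := by
    have h4 := (abs_sa T)
    rw [← ContinuousLinearMap.adjoint_inner_right]
    rw [← ContinuousLinearMap.star_eq_adjoint, h4.star_eq]
  rw [h3, h2, ContinuousLinearMap.star_eq_adjoint, ContinuousLinearMap.adjoint_inner_right]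

lemma norm_abs_apply (T : H →L[ℂ] H) (x : H) : ‖CFC.abs T x‖ = ‖T x‖ := by
  have h := inner_abs_abs T x x
  rw [inner_self_eq_norm_sq_to_K, inner_self_eq_norm_sq_to_K] at h
  have h2 : ‖CFC.abs T x‖ ^ 2 = ‖T x‖ ^ 2 := by exact_mod_cast h
  exact (pow_left_inj₀ (norm_nonneg _) (norm_nonneg _) two_ne_zero).1 h2

lemma abs_apply_eq_zero (T : H →L[ℂ] H) (x : H) : CFC.abs T x = 0 ↔ T x = 0 := by
  rw [← norm_eq_zero, norm_abs_apply, norm_eq_zero]

/-- the closure of the range of the absolute value -/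
noncomputable def KK (T : H →L[ℂ] H) : Submodule ℂ H :=
  (LinearMap.range (CFC.abs T : H →L[ℂ] H).toLinearMap).topologicalClosure

instance (T : H →L[ℂ] H) : CompleteSpace (KK T) :=
  (Submodule.isClosed_topologicalClosure _).completeSpace_coe

/-- the absolute value as a map to the closure of its range -/
noncomputable def eK (T : H →L[ℂ] H) : H →ₗ[ℂ] KK T :=
  (CFC.abs T : H →L[ℂ] H).toLinearMap.codRestrict (KK T) fun x =>
    Submodule.le_topologicalClosure _ ⟨x, rfl⟩

lemma eK_val (T : H →L[ℂ] H) (x : H) : ((eK T x : KK T) : H) = CFC.abs T x := rfl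

lemma eK_dense (T : H →L[ℂ] H) : DenseRange (eK T) := by
  intro k
  rw [Metric.mem_closure_iff]
  intro ε he
  have hk : (k : H) ∈ closure ((LinearMap.range (CFC.abs T : H →L[ℂ] H).toLinearMap : Submodule ℂ H) : Set H) :=
    k.2
  obtain ⟨y, ⟨x, rfl⟩, hd⟩ := Metric.mem_closure_iff.1 hk ε he
  exact ⟨eK T x, ⟨x, rfl⟩, hd⟩

lemma mem_KK_orth (T : H →L[ℂ] H) (x : H) : x ∈ (KK T)ᗮ ↔ T x = 0 := by
  unfold KK
  rw [Submodule.orthogonal_closure, Submodule.mem_orthogonal, ← abs_apply_eq_zero]
  constructor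
  · intro h
    have h1 := h (CFC.abs T (CFC.abs T x)) ⟨CFC.abs T x, rfl⟩
    have h2 : inner ℂ (CFC.abs T (CFC.abs T x)) x = inner ℂ (CFC.abs T x) (CFC.abs T x) := by
      rw [← ContinuousLinearMap.adjoint_inner_right]
      rw [← ContinuousLinearMap.star_eq_adjoint, (abs_sa T).star_eq]
    rw [h2] at h1
    exact inner_self_eq_zero.1 h1
  · rintro h _ ⟨y, rfl⟩
    change inner ℂ (CFC.abs T y) x = 0
    rw [← ContinuousLinearMap.adjoint_inner_right]
    rw [← ContinuousLinearMap.star_eq_adjoint, (abs_sa T).star_eq, h, inner_zero_right]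

/-- the isometric part on the closure of the range -/
noncomputable def V0 (T : H →L[ℂ] H) : KK T →L[ℂ] H := (T : H →ₗ[ℂ] H).extendOfNorm (eK T)

lemma V0_eK (T : H →L[ℂ] H) (x : H) : V0 T (eK T x) = T x :=
  LinearMap.extendOfNorm_eq (eK_dense T) ⟨1, fun x => by
    rw [one_mul]
    exact (norm_abs_apply T x).ge⟩ x

lemma V0_norm (T : H →L[ℂ] H) (k : KK T) : ‖V0 T k‖ = ‖k‖ := by
  have hc : IsClosed {k : KK T | ‖V0 T k‖ = ‖k‖} :=
    isClosed_eq (V0 T).continuous.norm continuous_norm
  refine (eK_dense T).induction_on (p := fun k => ‖V0 T k‖ = ‖k‖) k hc fun x => ?_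
  rw [V0_eK, ← norm_abs_apply]
  rfl

/-- the isometric part as a linear isometry -/
noncomputable def V0i (T : H →L[ℂ] H) : KK T →ₗᵢ[ℂ] H := ⟨(V0 T : KK T →ₗ[ℂ] H), V0_norm T⟩

/-- the partial isometry -/
noncomputable def VV (T : H →L[ℂ] H) : H →L[ℂ] H := V0 T ∘L (KK T).orthogonalProjectionOnto

lemma VV_apply (T : H →L[ℂ] H) (x : H) : VV T x = V0i T ((KK T).orthogonalProjectionOnto x) := rfl

lemma inner_VV (T : H →L[ℂ] H) (x y : H) :
    inner ℂ (VV T x) (VV T y) = inner ℂ ((KK T).starProjection x) y := by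
  rw [VV_apply, VV_apply, (V0i T).inner_map_map, Submodule.coe_inner]
  rw [← Submodule.starProjection_apply, ← Submodule.starProjection_apply]
  rw [← Submodule.inner_starProjection_left_eq_right]
  congr 1
  have := (KK T).isIdempotentElem_starProjection
  exact congrArg (fun A : H →L[ℂ] H => A x) this

lemma star_VV_VV (T : H →L[ℂ] H) : star (VV T) * VV T = (KK T).starProjection := by
  ext x
  apply ext_inner_right ℂ
  intro y
  change inner ℂ (star (VV T) (VV T x)) y = _
  rw [ContinuousLinearMap.star_eq_adjoint, ContinuousLinearMap.adjoint_inner_left, inner_VV]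

lemma VV_proj (T : H →L[ℂ] H) : VV T * (KK T).starProjection = VV T := by
  ext x
  change VV T ((KK T).starProjection x) = _
  rw [VV_apply, VV_apply]
  congr 1
  rw [Submodule.starProjection_apply]
  exact Submodule.orthogonalProjectionOnto_mem_subspace_eq_self _

lemma VV_abs (T : H →L[ℂ] H) : T = VV T * CFC.abs T := by
  ext x
  change _ = VV T (CFC.abs T x)
  rw [VV_apply]
  have h : (KK T).orthogonalProjectionOnto (CFC.abs T x) = eK T x :=
    Submodule.orthogonalProjectionOnto_mem_subspace_eq_self (eK T x)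
  rw [h]
  exact (V0_eK T x).symm

lemma VV_eq_zero (T : H →L[ℂ] H) (x : H) : VV T x = 0 ↔ T x = 0 := by
  rw [← mem_KK_orth T x, ← norm_eq_zero (a := VV T x), VV_apply, (V0i T).norm_map, norm_eq_zero]
  exact Submodule.orthogonalProjectionOnto_eq_zero_iff

theorem isPol_VV (T : H →L[ℂ] H) : IsPol T (VV T) :=
  ⟨by rw [mul_assoc, star_VV_VV, VV_proj], VV_eq_zero T, VV_abs T⟩

theorem isPol_unique (T V W : H →L[ℂ] H) (hV : IsPol T V) (hW : IsPol T W) : V = W := by
  have h1 : ∀ k : H, k ∈ KK T → V k = W k := by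
    intro k hk
    have hcl : IsClosed {k : H | V k = W k} := isClosed_eq V.continuous W.continuous
    have hk' : k ∈ closure ((LinearMap.range (CFC.abs T : H →L[ℂ] H).toLinearMap : Submodule ℂ H) : Set H) := hk
    refine closure_minimal ?_ hcl hk'
    rintro _ ⟨x, rfl⟩
    change V (CFC.abs T x) = W (CFC.abs T x)
    have e1 : T x = V (CFC.abs T x) := congrArg (fun A : H →L[ℂ] H => A x) hV.2.2
    have e2 : T x = W (CFC.abs T x) := congrArg (fun A : H →L[ℂ] H => A x) hW.2.2
    rw [← e1, ← e2]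
  ext x
  have hx : x = (KK T).starProjection x + (x - (KK T).starProjection x) := by abel
  have hm : x - (KK T).starProjection x ∈ (KK T)ᗮ :=
    Submodule.sub_starProjection_mem_orthogonal x
  have hT := (mem_KK_orth T _).1 hm
  rw [hx, map_add, map_add, (hV.2.1 _).2 hT, (hW.2.1 _).2 hT, h1 _ (by
    rw [Submodule.starProjection_apply]; exact Subtype.property _)]

theorem isPol_pol (T : H →L[ℂ] H) : IsPol T (pol T) :=
  Classical.epsilon_spec (p := IsPol T) ⟨VV T, isPol_VV T⟩

end

theorem mt_POL : T_POL := fun _ _ _ _ T =>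
  ⟨isPol_pol T, fun V hV => isPol_unique T V _ hV (isPol_pol T)⟩

end Pool.Agent.H88.MT
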